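import Pool.Agent.Lib.MP_dee342_nt.CountFourier
import Pool.Agent.Lib.MP_dee342_nt.CountSU

/-! Spacing of the frequencies `ξ 3 ^ (-K) / 2 ^ s`, from the `p`-adic Subspace Theorem. -/

set_option autoImplicit false

namespace Pool.Agent.Lib.MP_dee342_nt.Ex

open Finset Filter Pool.Agent.Lib.MP_dee342_nt.Count

theorem rid_exp (m : ℕ) (y : ℤ) (hy : |y| ≤ 2592 ^ m) : |(y : ℝ)| ≤ Real.exp (2592 * m) := by
  have h1 : |(y : ℝ)| ≤ 2592 ^ m := by exact_mod_cast hy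
  refine h1.trans ?_
  rw [mul_comm, Real.exp_nat_mul]
  exact pow_le_pow_left₀ (by norm_num) (by linarith [Real.add_one_le_exp (2592 : ℝ)]) m

theorem rid_height (m s K : ℕ) (z w t : ℤ) (hm : 1 ≤ m) (hK : K ≤ 4 * m)
    (h : 3 ^ K * z - 2 ^ s * w = t) (ht : |t| < 2 ^ m) (hz : |z| ≤ 16 ^ m) :
    |z * ((3 : ℕ) : ℤ) ^ K * 2 ^ 0| ≤ 2592 ^ m ∧ |w * ((3 : ℕ) : ℤ) ^ 0 * 2 ^ s| ≤ 2592 ^ m := by
  have h3 : (3 : ℤ) ^ K ≤ 81 ^ m := by
    rw [show (81 : ℤ) = 3 ^ 4 by norm_num, ← pow_mul]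
    exact pow_le_pow_right₀ (by norm_num) hK
  have h1 : |(3 : ℤ) ^ K * z| ≤ 1296 ^ m := by
    rw [abs_mul, abs_of_pos (by positivity : (0 : ℤ) < 3 ^ K),
      show (1296 : ℤ) = 81 * 16 by norm_num, mul_pow]
    exact mul_le_mul h3 hz (abs_nonneg _) (by positivity)
  have h2 : (2 : ℤ) ^ m ≤ 1296 ^ m := pow_le_pow_left₀ (by norm_num) (by norm_num) m
  have h4 : (2 : ℤ) * 1296 ^ m ≤ 2592 ^ m := by
    rw [show (2592 : ℤ) = 2 * 1296 by norm_num, mul_pow]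
    refine mul_le_mul_of_nonneg_right ?_ (by positivity)
    simpa using pow_le_pow_right₀ (by norm_num : (1 : ℤ) ≤ 2) hm
  have h5 : (0 : ℤ) < 1296 ^ m := by positivity
  constructor
  · have e : z * ((3 : ℕ) : ℤ) ^ K * 2 ^ 0 = 3 ^ K * z := by push_cast; ring
    rw [e]
    linarith
  · have e : w * ((3 : ℕ) : ℤ) ^ 0 * 2 ^ s = 3 ^ K * z - t := by rw [← h]; ring
    rw [e]
    have := abs_sub ((3 : ℤ) ^ K * z) t
    linarith

theorem rid_end (ε : ℝ) (m s K : ℕ) (z w t a b : ℤ) (hab : a ≠ 0 ∨ b ≠ 0) (hms : m ≤ s)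
    (h : 3 ^ K * z - 2 ^ s * w = t) (ht0 : t ≠ 0) (htK : |t| < 3 ^ K) (ht : |t| < 2 ^ m)
    (hlt : |(z : ℝ)| * (2 ^ m * Real.exp (ε * m)) < 2 ^ s)
    (ha : |(a : ℝ)| ≤ Real.exp (ε * m)) (hl : a * (3 ^ K * z) + b * (2 ^ s * w) = 0) : False := by
  have e : (a + b) * (2 ^ s * w) = -(a * t) := by rw [← h]; linarith
  have h2s : (0 : ℤ) < 2 ^ s := by positivity
  by_cases h1 : a + b = 0
  · rw [h1, zero_mul] at e
    have h2 : a = 0 := by
      have : a * t = 0 := by linarith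
      exact (mul_eq_zero.mp this).resolve_right ht0
    rcases hab with h3 | h3
    · exact h3 h2
    · exact h3 (by linarith)
  by_cases hw : w = 0
  · rw [hw, mul_zero, sub_zero] at h
    have hz : z ≠ 0 := by
      rintro rfl
      exact ht0 (by rw [← h, mul_zero])
    rw [← h, abs_mul, abs_of_pos (by positivity : (0 : ℤ) < 3 ^ K)] at htK
    have := Int.one_le_abs hz
    nlinarith [show (0 : ℤ) < 3 ^ K by positivity]
  have hw1 := Int.one_le_abs hw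
  have hsw : (2 : ℤ) ^ s ≤ |2 ^ s * w| := by
    rw [abs_mul, abs_of_pos h2s]
    nlinarith
  by_cases hz : z = 0
  · rw [hz, mul_zero, zero_sub] at h
    rw [← h, abs_neg] at ht
    have : (2 : ℤ) ^ m ≤ 2 ^ s := pow_le_pow_right₀ (by norm_num) hms
    linarith
  have h3 : (2 : ℤ) ^ s ≤ |a| * 2 ^ m := by
    have h4 : |(a + b) * (2 ^ s * w)| = |a| * |t| := by rw [e, abs_neg, abs_mul]
    rw [abs_mul] at h4
    have h5 := Int.one_le_abs h1
    have h6 : |a| * |t| ≤ |a| * 2 ^ m := mul_le_mul_of_nonneg_left ht.le (abs_nonneg _)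
    nlinarith [abs_nonneg ((2 : ℤ) ^ s * w)]
  have h4 : (2 : ℝ) ^ s ≤ |(a : ℝ)| * 2 ^ m := by exact_mod_cast h3
  have h5 : (1 : ℝ) ≤ |(z : ℝ)| := by exact_mod_cast Int.one_le_abs hz
  have h6 : (0 : ℝ) < 2 ^ m := by positivity
  have h7 : |(a : ℝ)| * 2 ^ m ≤ 2 ^ m * Real.exp (ε * m) := by nlinarith
  have h8 : (0 : ℝ) < 2 ^ m * Real.exp (ε * m) := by positivity
  nlinarith

theorem ridout (ε : ℝ) (hε : 0 < ε) : ∃ m₁ : ℕ, ∀ m ≥ m₁, ∀ (s K : ℕ) (z w t : ℤ), m ≤ s →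
    s ≤ 4 * m → K ≤ 4 * m → 3 ^ K * z - 2 ^ s * w = t → t ≠ 0 → |t| < 3 ^ K → |t| < 2 ^ m →
    (2 : ℝ) ^ s ≤ |(z : ℝ)| * (2 ^ m * Real.exp (ε * m)) := by
  classical
  by_contra hcon
  simp only [not_exists, not_forall, not_le, exists_prop] at hcon
  choose m hm s K z w t hms hs hK heq ht0 htK htm hlt using hcon
  let U : Ultrafilter ℕ := hyperfilter ℕ
  have hU : (U : Filter ℕ) ≤ atTop := Nat.hyperfilter_le_atTop
  have hNt : Tendsto m U atTop := (tendsto_atTop_mono hm tendsto_id).mono_left hU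
  have hnr : Tendsto (fun n => (m n : ℝ)) U atTop := tendsto_natCast_atTop_atTop.comp hNt
  have h3 : Odd 3 := by decide
  have hz : ∀ n, |z n| ≤ 16 ^ m n := by
    intro n
    have h1 : (1 : ℝ) ≤ 2 ^ m n * Real.exp (ε * m n) :=
      one_le_mul_of_one_le_of_one_le (one_le_pow₀ (by norm_num))
        (Real.one_le_exp (by positivity))
    have h2 : (2 : ℝ) ^ s n ≤ 16 ^ m n := by
      rw [show (16 : ℝ) = 2 ^ 4 by norm_num, ← pow_mul]
      exact pow_le_pow_right₀ (by norm_num) (hs n)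
    have h4 : |(z n : ℝ)| ≤ 16 ^ m n := by
      nlinarith [hlt n, abs_nonneg (z n : ℝ)]
    exact_mod_cast h4
  let M : Matrix (Fin 2) (Fin 2) ℤ := !![1, -1; 1, 0]
  have hM : M.det ≠ 0 := by simp [M, Matrix.det_fin_two]
  let x : ℕ → Fin 2 → ℤ := fun n =>
    ![z n * ((3 : ℕ) : ℤ) ^ K n * 2 ^ 0, w n * ((3 : ℕ) : ℤ) ^ 0 * 2 ^ s n]
  have key := Pool.Agent.Lib.Common.Subspace.subspace (ι := Fin 2) (insert 2 (3 : ℕ).primeFactors)
    (fun p hp => by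
      rcases mem_insert.mp hp with rfl | hp
      · exact Nat.prime_two
      · exact Nat.prime_of_mem_primeFactors hp)
    M hM (fun _ => 1) (fun p _ => by simp) U (fun n => (m n : ℝ)) hnr x 2592 ε hε ?_ ?_
  · obtain ⟨v, hv, hv'⟩ := key
    have hab : v 0 ≠ 0 ∨ v 1 ≠ 0 := by
      by_contra h0
      rw [not_or, not_not, not_not] at h0
      exact hv (funext fun i => by fin_cases i <;> simp [h0.1, h0.2])
    have ha : ∀ᶠ n in U, |(v 0 : ℝ)| ≤ Real.exp (ε * m n) := SE.const hNt (v 0) ε hε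
    obtain ⟨n, h1, h2⟩ := (hv'.and ha).exists
    refine rid_end ε (m n) (s n) (K n) (z n) (w n) (t n) (v 0) (v 1) hab (hms n) (heq n) (ht0 n)
      (htK n) (htm n) (hlt n) h2 ?_
    rw [← h1]
    simp only [x, dotProduct, Fin.sum_univ_two, Matrix.cons_val_zero, Matrix.cons_val_one]
    push_cast
    ring
  · filter_upwards [hNt.eventually_ge_atTop 1] with n hn i
    have h := rid_height (m n) (s n) (K n) (z n) (w n) (t n) hn (hK n) (heq n) (htm n) (hz n)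
    refine rid_exp _ _ ?_
    fin_cases i
    · exact h.1
    · exact h.2
  · refine Eventually.of_forall fun n => ?_
    have e0 : (Matrix.mulVec M (x n)) 0 = t n := by
      rw [← heq n]
      simp only [M, x, Matrix.mulVec, dotProduct, Fin.sum_univ_two, Matrix.of_apply,
        Matrix.cons_val', Matrix.cons_val_zero, Matrix.cons_val_one]
      push_cast
      ring
    have e1 : (Matrix.mulVec M (x n)) 1 = z n * ((3 : ℕ) : ℤ) ^ K n * 2 ^ 0 := by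
      simp only [M, x, Matrix.mulVec, dotProduct, Fin.sum_univ_two, Matrix.of_apply,
        Matrix.cons_val', Matrix.cons_val_zero, Matrix.cons_val_one]
      ring
    have x0 : x n 0 = z n * ((3 : ℕ) : ℤ) ^ K n * 2 ^ 0 := rfl
    have x1 : x n 1 = w n * ((3 : ℕ) : ℤ) ^ 0 * 2 ^ s n := rfl
    simp only [Matrix.one_mulVec, Fin.prod_univ_two, prod_mul_distrib]
    rw [e0, e1, x0, x1]
    have h1 := Pool.Agent.Lib.Common.Subspace.sunit_unit' 3 h3 (z n) (K n) 0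
    have h2 := padic_prod_le 3 h3 (w n) 0 (s n)
    have h4 : |(t n : ℝ)| ≤ 2 ^ m n := by exact_mod_cast (htm n).le
    have hP : ∀ y : ℤ, (0 : ℝ) ≤ ∏ p ∈ insert 2 (3 : ℕ).primeFactors,
        ((padicNorm p (y : ℚ) : ℚ) : ℝ) :=
      fun y => prod_nonneg fun p _ => by exact_mod_cast padicNorm.nonneg _
    have h5 := mul_le_mul (mul_le_mul h4 h1 (mul_nonneg (abs_nonneg _) (hP _)) (by positivity)) h2
      (hP _) (by positivity)
    refine le_trans (le_of_eq (by ring)) (h5.trans ?_)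
    have h6 := (hlt n).le
    rw [pow_zero, one_mul, ← div_eq_mul_inv, div_le_iff₀ (by positivity), neg_mul, Real.exp_neg,
      inv_mul_eq_div, le_div_iff₀ (Real.exp_pos _)]
    refine le_trans (le_of_eq (by ring)) h6

/-- The character of block `b` at the frequency `ξ`. -/
noncomputable def zz (m : ℕ) (u : ℤ) (K b : ℕ) (ξ : ℤ) : ℂ :=
  ee (((ξ * (u ^ K * 2 ^ (m * b)) : ℤ) : ℝ) / 2 ^ (m * 4))

theorem ee_int (x : ℝ) (r : ℤ) : ee (x + r) = ee x := by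
  rw [ee_add, ee, ee, show ((2 * Real.pi * r : ℝ) : ℂ) * Complex.I =
    r * (2 * Real.pi * Complex.I) by push_cast; ring, Complex.exp_int_mul_two_pi_mul_I, mul_one]

theorem sep (ε : ℝ) (hε : 0 < ε) : ∃ m₁ : ℕ, ∀ m ≥ m₁, ∀ u : ℤ, (2 : ℤ) ^ (m * 4) ∣ 3 * u - 1 →
    ∀ (K b : ℕ) (ξ ξ' : ℤ), K ≤ 4 * m → b < 4 → ξ ≠ ξ' → |ξ - ξ'| < 3 ^ K → |ξ - ξ'| < 2 ^ m →
    1 / (2 ^ m * Real.exp (ε * m)) ≤ ‖zz m u K b ξ - zz m u K b ξ'‖ := by
  obtain ⟨m₁, h⟩ := ridout ε hε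
  refine ⟨m₁, fun m hm u hu K b ξ ξ' hK hb hne h1 h2 => ?_⟩
  obtain ⟨s, hs⟩ : ∃ s, m * 4 = m * b + s := ⟨m * 4 - m * b, by
    have := Nat.mul_le_mul_left m hb.le
    omega⟩
  have hs1 : m ≤ s := by
    have := Nat.mul_le_mul_left m (show b ≤ 3 by omega)
    omega
  have hQ : (0 : ℝ) < 2 ^ s := by positivity
  obtain ⟨r, hr⟩ : ∃ r : ℤ, r = round ((((ξ - ξ') * u ^ K : ℤ) : ℝ) / 2 ^ s) := ⟨_, rfl⟩
  obtain ⟨z, hz⟩ : ∃ z : ℤ, z = (ξ - ξ') * u ^ K - 2 ^ s * r := ⟨_, rfl⟩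
  have hz' : (((ξ - ξ') * u ^ K : ℤ) : ℝ) / 2 ^ s - r = z / 2 ^ s := by
    rw [hz]
    push_cast
    field_simp
  have h3 : |(z : ℝ) / 2 ^ s| ≤ 1 / 2 := by
    rw [← hz', hr]
    exact abs_sub_round _
  obtain ⟨c, hc⟩ := dvd_pow_sub hu K
  have h4 := h m hm s K z ((ξ - ξ') * 2 ^ (m * b) * c - 3 ^ K * r) (ξ - ξ') hs1 (by omega) hK (by
    rw [hs, pow_add, mul_pow] at hc
    rw [hz]
    linear_combination (ξ - ξ') * hc) (sub_ne_zero.2 hne) h1 h2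
  have h5 : zz m u K b ξ = zz m u K b ξ' * ee (z / 2 ^ s) := by
    rw [zz, zz, ← ee_add, ← ee_int (_ + _) r]
    congr 1
    rw [← hz', hs, pow_add]
    push_cast
    field_simp
    ring
  rw [h5, ← mul_sub_one, norm_mul, zz, norm_ee, one_mul, ee, mul_comm _ Complex.I,
    Complex.norm_exp_I_mul_ofReal_sub_one, Real.norm_eq_abs, abs_mul, abs_two]
  have h6 := Real.mul_abs_le_abs_sin (x := 2 * Real.pi * (z / 2 ^ s) / 2) (by
    rw [show 2 * Real.pi * (z / 2 ^ s) / 2 = Real.pi * (z / 2 ^ s) by ring, abs_mul,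
      abs_of_pos Real.pi_pos]
    nlinarith [Real.pi_pos])
  have h7 : 2 / Real.pi * |2 * Real.pi * (z / 2 ^ s) / 2| = 2 * (|(z : ℝ)| / 2 ^ s) := by
    rw [show 2 * Real.pi * (z / 2 ^ s) / 2 = Real.pi * (z / 2 ^ s) by ring, abs_mul,
      abs_of_pos Real.pi_pos, abs_div, abs_of_pos hQ]
    field_simp
  have h8 : 1 / (2 ^ m * Real.exp (ε * m)) ≤ |(z : ℝ)| / 2 ^ s := by
    rw [div_le_div_iff₀ (by positivity) hQ, one_mul]
    exact h4
  have h9 : 0 ≤ |(z : ℝ)| / 2 ^ s := by positivity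
  linarith

end Pool.Agent.Lib.MP_dee342_nt.Ex
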