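import Pool.Agent.Lib.MP_dee342_nt.CountApp
import Pool.Agent.Lib.MP_dee342_nt.Ex.Rid

/-! Four blocks of parities: the count of one class from four fourth moments. -/

set_option autoImplicit false

namespace Pool.Agent.Lib.MP_dee342_nt.Ex

open Finset Real Pool.Agent.Lib.MP_dee342_nt.Count

theorem cls_pow (n : ℕ) (x : ℝ) : ee (n * x) = ee x ^ n := by
  rw [ee, ee, ← Complex.exp_nat_mul]
  congr 1
  push_cast
  ring

theorem cls_four {ι : Type} (s : Finset ι) (x : Fin 4 → ι → ℝ) :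
    (∑ i ∈ s, ∏ b, x b i) ^ 4 ≤ ∏ b, ∑ i ∈ s, x b i ^ 4 := by
  have h1 := sum_mul_sq_le_sq_mul_sq s (fun i => x 0 i * x 1 i) fun i => x 2 i * x 3 i
  have h2 := sum_mul_sq_le_sq_mul_sq s (fun i => x 0 i ^ 2) fun i => x 1 i ^ 2
  have h3 := sum_mul_sq_le_sq_mul_sq s (fun i => x 2 i ^ 2) fun i => x 3 i ^ 2
  simp only [Fin.prod_univ_four, mul_pow, ← pow_mul, mul_assoc] at h1 h2 h3 ⊢
  calc _ = ((∑ i ∈ s, x 0 i * (x 1 i * (x 2 i * x 3 i))) ^ 2) ^ 2 := by ring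
    _ ≤ _ := pow_le_pow_left₀ (sq_nonneg _) h1 2
    _ ≤ _ := by
      rw [mul_pow, ← mul_assoc]
      exact mul_le_mul h2 h3 (sq_nonneg _) ((sq_nonneg _).trans h2)

theorem cls (m k : ℕ) (hk : k + 3 ≤ m) (u : ℤ) (hu : (2 : ℤ) ^ (m * 4) ∣ 3 * u - 1)
    (σ : Fin 4 → ℕ) (U : Fin 4 → Finset (Fin m → Bool)) (hU : ∀ b, ∀ v ∈ U b, cnt v = σ b)
    (S : Fin 4 → ℝ) (R : ℝ) (hR : 0 ≤ R) (hS : ∏ b, S b ≤ R ^ 4)
    (H : ∀ (j : ℕ) (b : Fin 4), ∑ i ∈ range (2 ^ k), ‖∑ v ∈ U b,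
      zz m u (PS (ex σ) (b + 1)) b ((j : ℤ) - (i : ℤ)) ^ (phi 3 m v).toNat‖ ^ 4 ≤ S b)
    (A : Finset ℤ) (hA : ∀ n ∈ A, |n| ≤ 2 ^ (3 * m) ∧ ∀ b, bw 3 m 4 n b ∈ U b) :
    (A.card : ℝ) * 2 ^ k ≤ 6 * R := by
  classical
  let F : (Fin 4 → Fin m → Bool) → ℝ := fun w =>
    if w ∈ Fintype.piFinset U then Fej (2 ^ k) (Phi 3 u w / 2 ^ (m * 4)) else 0
  have hF : ∀ w, 0 ≤ F w := fun w => by
    simp only [F]
    split_ifs
    · exact Fej_nonneg _ _
    · exact le_rfl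
  have e1 : (A.card : ℝ) * ((2 ^ k) ^ 2 / 2) ≤ ∑ n ∈ A, F (bw 3 m 4 n) := by
    rw [← nsmul_eq_mul]
    refine card_nsmul_le_sum _ _ _ fun n hn => ?_
    simp only [F]
    rw [if_pos (Fintype.mem_piFinset.2 (hA n hn).2)]
    obtain ⟨z, hz⟩ := dvd_Phi (a := 3) (by decide) m 4 hu n
    have h2 : (Phi 3 u (bw 3 m 4 n) : ℝ) / 2 ^ (m * 4) = -n / 2 ^ (m * 4) + z := by
      have h3 : (n : ℝ) + Phi 3 u (bw 3 m 4 n) = 2 ^ (m * 4) * z := by exact_mod_cast hz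
      field_simp
      linarith
    rw [h2]
    refine le_trans (le_of_eq (by push_cast; rfl)) (Fej_ge _ _ z ?_)
    have h3 : |(n : ℝ)| ≤ 2 ^ (3 * m) := by exact_mod_cast (hA n hn).1
    have h4 : (2 : ℝ) ^ (k + 3 * m + 3) ≤ 2 ^ (m * 4) :=
      pow_le_pow_right₀ (by norm_num) (by omega)
    rw [abs_div, abs_neg, abs_of_pos (a := (2 : ℝ) ^ _) (by positivity), ← mul_div_assoc,
      div_le_iff₀ (by positivity)]
    rw [pow_add, pow_add] at h4
    push_cast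
    have := mul_le_mul_of_nonneg_left h3 (show (0 : ℝ) ≤ 2 ^ k by positivity)
    linarith
  have e2 := sum_bw_le (a := 3) (by decide) m 4 A (fun n hn => (hA n hn).1.trans
    (pow_le_pow_right₀ (by norm_num) (by omega))) F hF
  have key : ∀ ξ : ℤ, ∑ w ∈ Fintype.piFinset U, cos (2 * π * (ξ * (Phi 3 u w / 2 ^ (m * 4)))) ≤
      ∏ b : Fin 4, ‖∑ v ∈ U b, zz m u (PS (ex σ) (b + 1)) b ξ ^ (phi 3 m v).toNat‖ := by
    intro ξ
    rw [← norm_prod, prod_univ_sum]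
    refine le_trans (le_of_eq ?_) (Complex.re_le_norm _)
    rw [Complex.re_sum]
    refine sum_congr rfl fun w hw => ?_
    have h2 : (fun b => cnt (w b)) = σ := funext fun b => hU b _ (Fintype.mem_piFinset.1 hw b)
    simp only [zz, ← cls_pow]
    rw [← ee_sum, re_ee, Phi, h2]
    congr 2
    push_cast
    rw [sum_div, mul_sum]
    refine sum_congr rfl fun b _ => ?_
    have h3 : (((phi 3 m (w b)).toNat : ℕ) : ℝ) = phi 3 m (w b) := by
      exact_mod_cast congrArg (Int.cast (R := ℝ)) (Int.toNat_of_nonneg (phi_bound le_rfl m _).1)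
    rw [h3]
    ring
  have e3 : ∑ w, F w ≤ 2 ^ k * R := by
    calc _ = ∑ j ∈ range (2 ^ k), ∑ i ∈ range (2 ^ k), ∑ w ∈ Fintype.piFinset U,
          cos (2 * π * (((j : ℤ) - (i : ℤ) : ℤ) * (Phi 3 u w / 2 ^ (m * 4)))) := by
          rw [sum_congr rfl fun j _ => sum_comm, sum_comm]
          simp only [F, sum_ite_mem, univ_inter, Fej]
      _ ≤ ∑ _j ∈ range (2 ^ k), R := by
          refine sum_le_sum fun j _ => (sum_le_sum fun i _ => key _).trans ?_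
          refine le_of_pow_le_pow_left₀ (n := 4) (by norm_num) hR ((cls_four _ _).trans ?_)
          exact (prod_le_prod (fun b _ => by positivity) fun b _ => H j b).trans hS
      _ = _ := by simp
  refine le_of_mul_le_mul_left ?_ (show (0 : ℝ) < 2 ^ k by positivity)
  push_cast at e2
  linarith

end Pool.Agent.Lib.MP_dee342_nt.Ex
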