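import Pool.Agent.Lib.MP_dee342_nt.CountApp

/-! The additive energy of the residue classes of parity words, and the highest term of a word. -/

set_option autoImplicit false

namespace Pool.Agent.Lib.MP_dee342_nt.Ex

open Finset Pool.Agent.Lib.MP_dee342_nt.Count

/-- The product of the odds `o j` over the positions `j` of the ones of a word. -/
def ow (o : ℕ → ℝ) {G : ℕ} (v : Fin G → Bool) : ℝ := ∏ j : Fin G, if v j then o j else 1

theorem ow_succ (o : ℕ → ℝ) {G : ℕ} (v : Fin (G + 1) → Bool) :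
    ow o v = (if v 0 then o 0 else 1) * ow (fun j => o (j + 1)) (Fin.tail v) :=
  Fin.prod_univ_succ _

theorem ow_nonneg {o : ℕ → ℝ} (ho : ∀ j, 0 ≤ o j) {G : ℕ} (v : Fin G → Bool) : 0 ≤ ow o v :=
  prod_nonneg fun j _ => by split_ifs; exacts [ho j, zero_le_one]

/-- The weight of four words of given weights with a given alternating sum of additive terms. -/
noncomputable def en (G : ℕ) (o : ℕ → ℝ) (k₁ k₂ k₃ k₄ : ℕ) (d : ℤ) (x y z w : Fin G → Bool) : ℝ :=
  if cnt x = k₁ ∧ cnt y = k₂ ∧ cnt z = k₃ ∧ cnt w = k₄ ∧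
    phi 3 G x + phi 3 G y - phi 3 G z - phi 3 G w = d then ow o x * ow o y * ow o z * ow o w else 0

theorem en_nonneg (G : ℕ) {o : ℕ → ℝ} (ho : ∀ j, 0 ≤ o j) (k₁ k₂ k₃ k₄ : ℕ) (d : ℤ)
    (x y z w : Fin G → Bool) : 0 ≤ en G o k₁ k₂ k₃ k₄ d x y z w := by
  have := fun v : Fin G → Bool => ow_nonneg ho v
  unfold en
  split_ifs
  · exact mul_nonneg (mul_nonneg (mul_nonneg (this _) (this _)) (this _)) (this _)
  · exact le_rfl

theorem ite_le_of {P : Prop} [Decidable P] {x y : ℝ} (h : P → x ≤ y) (hy : 0 ≤ y) :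
    (if P then x else 0) ≤ y := by
  split_ifs with c; exacts [h c, hy]

/-- The first term of a word of weight `k` with first letter `a`. -/
def ft (a : Bool) (k : ℕ) : ℤ := if a then 3 ^ (k - 1) else 0

theorem en_head {G : ℕ} (v : Fin (G + 1) → Bool) :
    cnt (Fin.tail v) = cnt v - (v 0).toNat ∧
      phi 3 (G + 1) v = ft (v 0) (cnt v) + 2 * phi 3 G (Fin.tail v) ∧
      ft (v 0) (cnt v) % 2 = (v 0).toNat := by
  rw [phi, cnt_succ, ft]
  cases v 0
  · simp
  · simpa using Int.odd_iff.1 (Odd.pow (show Odd (3 : ℤ) by decide))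

theorem en_succ (G : ℕ) {o : ℕ → ℝ} (ho : ∀ j, 0 ≤ o j) (k₁ k₂ k₃ k₄ : ℕ) (d : ℤ)
    (x y z w : Fin (G + 1) → Bool) : en (G + 1) o k₁ k₂ k₃ k₄ d x y z w ≤
      (if (d + (x 0).toNat + (y 0).toNat + (z 0).toNat + (w 0).toNat) % 2 = 0 then
        (if x 0 then o 0 else 1) * (if y 0 then o 0 else 1) * (if z 0 then o 0 else 1) *
          (if w 0 then o 0 else 1) else 0) *
      en G (fun j => o (j + 1)) (k₁ - (x 0).toNat) (k₂ - (y 0).toNat) (k₃ - (z 0).toNat)
        (k₄ - (w 0).toNat) ((d - ft (x 0) k₁ - ft (y 0) k₂ + ft (z 0) k₃ + ft (w 0) k₄) / 2)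
        (Fin.tail x) (Fin.tail y) (Fin.tail z) (Fin.tail w) := by
  have h0 : ∀ a : Bool, 0 ≤ if a then o 0 else 1 := fun a => by
    split_ifs; exacts [ho 0, zero_le_one]
  rw [en]
  refine ite_le_of ?_ (mul_nonneg (ite_nonneg (mul_nonneg (mul_nonneg (mul_nonneg (h0 _) (h0 _))
    (h0 _)) (h0 _)) le_rfl) (en_nonneg G (fun j => ho _) ..))
  rintro ⟨rfl, rfl, rfl, rfl, rfl⟩
  obtain ⟨a1, a2, a3⟩ := en_head x
  obtain ⟨b1, b2, b3⟩ := en_head y
  obtain ⟨c1, c2, c3⟩ := en_head z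
  obtain ⟨d1, d2, d3⟩ := en_head w
  rw [if_pos (by omega), en, if_pos (c := _ ∧ _) ⟨a1, b1, c1, d1, by omega⟩, ow_succ o x,
    ow_succ o y, ow_succ o z, ow_succ o w]
  exact le_of_eq (by ring)

theorem en_sum (G : ℕ) : ∀ (o : ℕ → ℝ), (∀ j, 0 ≤ o j) → ∀ (k₁ k₂ k₃ k₄ : ℕ) (d : ℤ),
    ∑ V : Fin G → Bool × Bool × Bool × Bool, en G o k₁ k₂ k₃ k₄ d (fun j => (V j).1)
      (fun j => (V j).2.1) (fun j => (V j).2.2.1) (fun j => (V j).2.2.2) ≤
      ∏ j ∈ range G, (1 + 6 * o j ^ 2 + o j ^ 4) := by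
  induction G with
  | zero =>
    intro o _ k₁ k₂ k₃ k₄ d
    rw [Fintype.sum_unique, en]
    split_ifs <;> simp [ow]
  | succ G ih =>
    intro o ho k₁ k₂ k₃ k₄ d
    rw [← (Fin.consEquiv fun _ => Bool × Bool × Bool × Bool).sum_comp, Fintype.sum_prod_type,
      prod_range_succ']
    have hP : 0 ≤ ∏ j ∈ range G, (1 + 6 * o (j + 1) ^ 2 + o (j + 1) ^ 4) :=
      prod_nonneg fun j _ => by positivity
    refine (sum_le_sum (g := fun a : Bool × Bool × Bool × Bool =>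
      (if (d + a.1.toNat + a.2.1.toNat + a.2.2.1.toNat + a.2.2.2.toNat) % 2 = 0 then
        (if a.1 then o 0 else 1) * (if a.2.1 then o 0 else 1) * (if a.2.2.1 then o 0 else 1) *
          (if a.2.2.2 then o 0 else 1) else 0) *
        ∏ j ∈ range G, (1 + 6 * o (j + 1) ^ 2 + o (j + 1) ^ 4)) fun a _ => ?_).trans ?_
    · refine (sum_le_sum fun V _ => en_succ G ho ..).trans ?_
      have h0 : ∀ a : Bool, 0 ≤ if a then o 0 else 1 := fun a => by
        split_ifs; exacts [ho 0, zero_le_one]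
      simp only [Fin.consEquiv_apply, Fin.cons_zero]
      rw [← mul_sum]
      exact mul_le_mul_of_nonneg_left (ih _ (fun j => ho _) ..)
        (ite_nonneg (mul_nonneg (mul_nonneg (mul_nonneg (h0 _) (h0 _)) (h0 _)) (h0 _)) le_rfl)
    · rw [← sum_mul, mul_comm]
      refine mul_le_mul_of_nonneg_left ?_ hP
      have h1 : 0 ≤ (o 0 - 1) ^ 4 := by positivity
      simp only [Fintype.sum_prod_type, Fintype.sum_bool, Bool.toNat_true, Bool.toNat_false,
        if_true, Bool.false_eq_true, if_false, Nat.cast_one, Nat.cast_zero]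
      rcases Int.emod_two_eq_zero_or_one d with h | h
      · simp (disch := omega) only [if_pos, if_neg]
        linarith
      · simp (disch := omega) only [if_pos, if_neg]
        linarith

theorem energy (G : ℕ) (o : ℕ → ℝ) (ho : ∀ j, 0 ≤ o j) (k : ℕ) (ω : ℝ)
    (U : Finset (Fin G → Bool)) (hU : ∀ v ∈ U, cnt v = k ∧ ow o v = ω) :
    ((((U ×ˢ U) ×ˢ (U ×ˢ U)).filter fun p =>
      phi 3 G p.1.1 + phi 3 G p.1.2 = phi 3 G p.2.1 + phi 3 G p.2.2).card : ℝ) * ω ^ 4 ≤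
      ∏ j ∈ range G, (1 + 6 * o j ^ 2 + o j ^ 4) := by
  classical
  refine le_trans ?_ (en_sum G o ho k k k k 0)
  let g : ((Fin G → Bool) × (Fin G → Bool)) × (Fin G → Bool) × (Fin G → Bool) →
    Fin G → Bool × Bool × Bool × Bool := fun p j => (p.1.1 j, p.1.2 j, p.2.1 j, p.2.2 j)
  have hg : Function.Injective g := fun p q h => by
    have h1 := fun j => congrFun h j
    simp only [g, Prod.mk.injEq] at h1
    exact Prod.ext (Prod.ext (funext fun j => (h1 j).1) (funext fun j => (h1 j).2.1))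
      (Prod.ext (funext fun j => (h1 j).2.2.1) (funext fun j => (h1 j).2.2.2))
  refine le_trans ?_ (sum_le_sum_of_subset_of_nonneg (subset_univ ((((U ×ˢ U) ×ˢ (U ×ˢ U)).filter
    fun p => phi 3 G p.1.1 + phi 3 G p.1.2 = phi 3 G p.2.1 + phi 3 G p.2.2).image g))
    fun _ _ _ => en_nonneg G ho ..)
  rw [sum_image hg.injOn, ← nsmul_eq_mul]
  refine card_nsmul_le_sum _ _ _ fun p hp => ?_
  simp only [mem_filter, mem_product] at hp
  obtain ⟨⟨⟨a, b⟩, c, e⟩, h⟩ := hp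
  refine le_of_eq (Eq.trans ?_ (if_pos ⟨(hU _ a).1, (hU _ b).1, (hU _ c).1, (hU _ e).1,
    by linarith⟩).symm)
  rw [(hU _ a).2, (hU _ b).2, (hU _ c).2, (hU _ e).2]
  ring

theorem ow_const (y : ℝ) (G : ℕ) (v : Fin G → Bool) : ow (fun _ => y) v = y ^ cnt v := by
  rw [ow, cnt, ← prod_pow_eq_pow_sum]
  exact prod_congr rfl fun j _ => by split_ifs <;> simp

theorem split (G : ℕ) (v : Fin G → Bool) : ∃ l ≤ G, ∃ r ≤ cnt v, 2 ^ G ≤ 3 ^ r * 2 ^ l ∧
    phi 3 G v ≤ G * (3 ^ r * 2 ^ l) ∧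
    ∀ x y : ℝ, ow (fun j => if j < l then x else y) v = x ^ (cnt v - r) * y ^ r := by
  induction G with
  | zero => exact ⟨0, le_rfl, 0, Nat.zero_le _, by simp, by simp [phi], by simp [ow, cnt]⟩
  | succ G ih =>
    obtain ⟨l, hl, r, hr, h1, h2, h3⟩ := ih (Fin.tail v)
    have h4 := cnt_succ v
    have h5 : phi 3 (G + 1) v ≤ 3 ^ cnt v + 2 * (G * (3 ^ r * 2 ^ l)) := by
      have h6 : (3 : ℤ) ^ cnt (Fin.tail v) ≤ 3 ^ cnt v :=
        pow_le_pow_right₀ (by norm_num) (by omega)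
      have h7 : (0 : ℤ) < 3 ^ cnt v := by positivity
      rw [phi]
      split_ifs <;> linarith
    have hG : (0 : ℤ) ≤ G := by positivity
    rcases le_total (3 ^ cnt v) (3 ^ r * 2 ^ (l + 1)) with h | h
    · have h' : (3 : ℤ) ^ cnt v ≤ 3 ^ r * 2 ^ (l + 1) := by exact_mod_cast h
      refine ⟨l + 1, by omega, r, by omega, by rw [pow_succ, pow_succ, ← mul_assoc]; omega,
        by rw [pow_succ] at h' ⊢; push_cast; linarith, fun x y => ?_⟩
      rw [ow_succ]
      simp only [Nat.add_lt_add_iff_right, Nat.zero_lt_succ, if_true]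
      rw [h3, h4]
      split_ifs
      · rw [Nat.add_sub_assoc hr, pow_add]
        ring
      · rw [zero_add, one_mul]
    · have h' : (3 : ℤ) ^ r * 2 ^ (l + 1) ≤ 3 ^ cnt v := by exact_mod_cast h
      refine ⟨0, by omega, cnt v, le_rfl, by rw [pow_succ, ← mul_assoc] at h; omega, ?_,
        fun x y => by simp [ow_const]⟩
      rw [pow_succ] at h'
      push_cast
      nlinarith

end Pool.Agent.Lib.MP_dee342_nt.Ex
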