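import Pool.Agent.Lib.MP_dee342_nt.Ex.LS
import Pool.Agent.Lib.MP_dee342_nt.Ex.En
import Pool.Agent.Lib.MP_dee342_nt.Ex.Rid

/-! The fourth moment of one block. -/

set_option autoImplicit false

namespace Pool.Agent.Lib.MP_dee342_nt.Ex

open Finset Real Pool.Agent.Lib.MP_dee342_nt.Count

theorem grp (ε : ℝ) (hε : 0 < ε) : ∃ m₁ : ℕ, ∀ m ≥ m₁, ∀ u : ℤ, (2 : ℤ) ^ (m * 4) ∣ 3 * u - 1 →
    ∀ k K b s l r j : ℕ, K ≤ 4 * m → b < 4 → 2 ^ k ≤ 3 ^ K → k ≤ m → l ≤ m → r ≤ s →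
    2 ^ m ≤ 3 ^ r * 2 ^ l → ∀ U : Finset (Fin m → Bool), (∀ v ∈ U, cnt v = s ∧
      phi 3 m v ≤ m * (3 ^ r * 2 ^ l) ∧ ow (fun j => if j < l then 75 / 52 else 112 / 59) v =
        (75 / 52) ^ (s - r) * (112 / 59) ^ r) →
    ∑ i ∈ range (2 ^ k), ‖∑ v ∈ U, zz m u K b ((j : ℤ) - (i : ℤ)) ^ (phi 3 m v).toNat‖ ^ 4 ≤
      120 * (m + 1) * exp (ε * m) * (3562 / 100) ^ m / ((75 / 52) ^ 4) ^ s := by
  obtain ⟨m₁, h⟩ := sep ε hε
  refine ⟨m₁, fun m hm u hu k K b s l r j hK hb h1 h2 h3 h4 h5 U hU => ?_⟩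
  have p0 := fun v : Fin m → Bool => (phi_bound (a := 3) le_rfl m v).1
  have e1 : 1 ≤ exp (ε * m) := one_le_exp (by positivity)
  have hY : (2 : ℝ) ^ m ≤ 3 ^ r * 2 ^ l := by exact_mod_cast h5
  have hY1 : (1 : ℝ) ≤ 3 ^ r * 2 ^ l := (one_le_pow₀ one_le_two).trans hY
  have hm0 : (0 : ℝ) ≤ m := by positivity
  have hc : 3 ^ r * 2 ^ l * exp (ε * m) ≤ 2 * (m + 1) * exp (ε * m) * (3 ^ r * 2 ^ l) := by
    nlinarith [mul_nonneg hm0 (mul_nonneg (zero_le_one.trans e1) (zero_le_one.trans hY1)),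
      mul_nonneg (zero_le_one.trans e1) (zero_le_one.trans hY1)]
  have h6 := l4 (range (2 ^ k)) (fun i => zz m u K b ((j : ℤ) - (i : ℤ))) (fun _ _ => norm_ee _)
    (δ := 1 / (2 * (m + 1) * exp (ε * m) * (3 ^ r * 2 ^ l))) (by positivity)
    ((div_le_one (by positivity)).2 (le_trans (by nlinarith) hc)) (fun i hi i' hi' hne => by
      have a1 : |(j : ℤ) - i - (j - i')| < 2 ^ k := by
        have a2 : (i : ℤ) < 2 ^ k := by exact_mod_cast mem_range.1 hi
        have a3 : (i' : ℤ) < 2 ^ k := by exact_mod_cast mem_range.1 hi'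
        rw [abs_lt]
        omega
      refine le_trans (one_div_le_one_div_of_le (by positivity) (le_trans ?_ hc))
        (h m hm u hu K b _ _ hK hb (by omega) (a1.trans_le (by exact_mod_cast h1))
          (a1.trans_le (pow_le_pow_right₀ one_le_two h2)))
      gcongr) U (fun v => (phi 3 m v).toNat) (m * (3 ^ r * 2 ^ l))
    (fun v hv => Int.toNat_le.2 (by exact_mod_cast (hU v hv).2.1)) (by
      rw [mul_one_div, div_le_one (by positivity)]
      push_cast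
      nlinarith [mul_nonneg hm0 (mul_nonneg (sub_nonneg.2 e1) (zero_le_one.trans hY1)),
        mul_nonneg (zero_le_one.trans e1) (zero_le_one.trans hY1)])
  have h7 := energy m (fun j => if j < l then 75 / 52 else 112 / 59)
    (fun j => by split_ifs <;> norm_num) s _ U fun v hv => ⟨(hU v hv).1, (hU v hv).2.2⟩
  rw [filter_congr (q := fun p => phi 3 m p.1.1 + phi 3 m p.1.2 = phi 3 m p.2.1 + phi 3 m p.2.2)
    fun p _ => by
      have := p0 p.1.1
      have := p0 p.1.2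
      have := p0 p.2.1
      have := p0 p.2.2
      omega] at h6
  generalize (((U ×ˢ U) ×ˢ (U ×ˢ U)).filter fun p =>
    phi 3 m p.1.1 + phi 3 m p.1.2 = phi 3 m p.2.1 + phi 3 m p.2.2).card = E at h6 h7
  obtain ⟨t, rfl⟩ := Nat.exists_eq_add_of_le h3
  obtain ⟨q, rfl⟩ := Nat.exists_eq_add_of_le h4
  have h8 : 2 ^ l * ∏ j ∈ range (l + t), (1 + 6 * (if j < l then 75 / 52 else 112 / 59 : ℝ) ^ 2 +
      (if j < l then 75 / 52 else 112 / 59) ^ 4) ≤ (3562 / 100) ^ (l + t) := by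
    have hh : ∀ x, ¬ l + x < l := fun x => by omega
    rw [prod_range_add, prod_congr rfl fun j hj => by rw [if_pos (mem_range.1 hj)]]
    simp only [hh, if_false]
    rw [prod_const, prod_const, card_range, card_range, ← mul_assoc, ← mul_pow, pow_add]
    gcongr <;> norm_num
  have h9 : (3 : ℝ) ^ r * ((75 / 52) ^ 4) ^ (r + q) ≤
      ((75 / 52) ^ (r + q - r) * (112 / 59) ^ r) ^ 4 := by
    rw [Nat.add_sub_cancel_left, pow_add, ← mul_assoc, ← mul_pow, mul_pow _ _ 4, mul_comm,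
      ← pow_mul _ q, ← pow_mul _ r, mul_comm q, mul_comm r, pow_mul, pow_mul]
    gcongr
    norm_num
  refine h6.trans ?_
  rw [le_div_iff₀ (by positivity), one_div, div_inv_eq_mul]
  have h10 := (mul_le_mul_of_nonneg_left (((mul_le_mul_of_nonneg_left h9 (Nat.cast_nonneg E))).trans
    h7) (show (0 : ℝ) ≤ 2 ^ l by positivity)).trans h8
  exact le_trans (le_of_eq (by ring)) (mul_le_mul_of_nonneg_left h10 (by positivity))

end Pool.Agent.Lib.MP_dee342_nt.Ex
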