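import Pool.Agent.Lib.MP_dee342_nt.CountFar
import Pool.Agent.Lib.MP_dee342_nt.Ex.Cls
import Pool.Agent.Lib.MP_dee342_nt.Ex.Grp

/-! Integers up to `2 ^ (3 m)` with many odd steps among the first `m` and the first `4 m`. -/

set_option autoImplicit false

namespace Pool.Agent.Lib.MP_dee342_nt.Ex

open Finset Real Pool.Agent.Lib.MP_dee342_nt.Count

theorem core4 (ε : ℝ) (hε : 0 < ε) : ∃ m₁ : ℕ, ∀ m ≥ m₁, ∀ e : ℕ, e + 3 ≤ m → ∀ A : Finset ℤ,
    (∀ n ∈ A, |n| ≤ 2 ^ (3 * m) ∧ 2 ^ m ≤ 2 ^ e * 3 ^ cnt (wd 3 m n) ∧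
      2 ^ (4 * m) ≤ 2 ^ e * 3 ^ cnt (wd 3 (4 * m) n)) →
    (A.card : ℝ) ≤ 5760 * (m + 1) ^ 13 * exp (ε * m) * 4 ^ e * (70681 / 10000) ^ m := by
  classical
  obtain ⟨m₁, h⟩ := grp ε hε
  refine ⟨m₁, fun m hm e he A hA => ?_⟩
  obtain ⟨k, hk⟩ : ∃ k, m = k + (e + 3) := ⟨m - (e + 3), by omega⟩
  obtain ⟨u, hu⟩ := exists_inv (a := 3) (by decide) (m * 4)
  choose l hl r hr h1 h2 h3 using split m
  let g : (Fin m → Bool) → ℕ × ℕ × ℕ := fun v => (cnt v, l v, r v)
  let κ : ℤ → Fin 4 → ℕ × ℕ × ℕ := fun n b => g (bw 3 m 4 n b)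
  have hκ : ∀ n ∈ A, κ n ∈ Fintype.piFinset fun _ : Fin 4 =>
      range (m + 1) ×ˢ range (m + 1) ×ˢ range (m + 1) := fun n _ =>
    Fintype.mem_piFinset.2 fun b => by
      simp only [κ, g, mem_product, mem_range, Nat.lt_succ_iff]
      exact ⟨cnt_le _, hl _, (hr _).trans (cnt_le _)⟩
  rw [card_eq_sum_card_fiberwise hκ, Nat.cast_sum]
  refine (sum_le_card_nsmul _ _ (5760 * (m + 1) * exp (ε * m) * 4 ^ e * (70681 / 10000) ^ m)
    fun y _ => ?_).trans (le_of_eq ?_)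
  swap
  · simp only [Fintype.card_piFinset, card_product, card_range, prod_const, card_univ,
      Fintype.card_fin, nsmul_eq_mul]
    push_cast
    ring
  rcases (A.filter fun n => κ n = y).eq_empty_or_nonempty with h0 | ⟨n, hn⟩
  · rw [h0, card_empty, Nat.cast_zero]
    positivity
  obtain ⟨hn', rfl⟩ := mem_filter.1 hn
  obtain ⟨-, a2, a3⟩ := hA n hn'
  let σ : Fin 4 → ℕ := fun b => cnt (bw 3 m 4 n b)
  have hPS : ∀ b ≤ 4, PS (ex σ) b = cnt (wd 3 (m * b) n) := fun b hb => by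
    induction b with
    | zero => simp [PS, cnt_wd]
    | succ b ih =>
      rw [PS, sum_range_succ, ← PS, ih (by omega), Nat.mul_succ, cnt_add, ex,
        dif_pos (show b < 4 from hb)]
      rfl
  have h4 := cls m k (by omega) u hu σ (fun b => univ.filter fun v => g v = κ n b)
    (fun b v hv => congrArg Prod.fst (mem_filter.1 hv).2)
    (fun b => 120 * (m + 1) * exp (ε * m) * (3562 / 100) ^ m / ((75 / 52) ^ 4) ^ σ b)
    (120 * (m + 1) * exp (ε * m) * (3562 / 100) ^ m * 2 ^ e / (25198 / 10000) ^ m)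
    (by positivity) ?_ (fun j b => h m hm u hu k _ b (σ b) (l (bw 3 m 4 n b)) (r (bw 3 m 4 n b)) j
      ?_ b.2 ?_ (by omega) (hl _) (hr _) (h1 _) _ fun v hv => ?_) (A.filter fun x => κ x = κ n)
    fun x hx => ⟨(hA x (mem_filter.1 hx).1).1, fun b =>
      mem_filter.2 ⟨mem_univ _, congrFun (mem_filter.1 hx).2 b⟩⟩
  · refine le_of_mul_le_mul_right (h4.trans ?_) (show (0 : ℝ) < 2 ^ k by positivity)
    have b1 : (3562 / 100 : ℝ) ^ m ≤ (70681 / 10000) ^ m * 2 ^ m * (25198 / 10000) ^ m := by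
      rw [← mul_pow, ← mul_pow]
      exact pow_le_pow_left₀ (by norm_num) (by norm_num) _
    have b2 : (2 : ℝ) ^ m = 2 ^ k * (2 ^ e * 8) := by
      rw [hk, pow_add, pow_add]
      norm_num
    have b3 : (4 : ℝ) ^ e = 2 ^ e * 2 ^ e := by
      rw [← mul_pow]
      norm_num
    rw [← mul_div_assoc, div_le_iff₀ (by positivity), b3]
    rw [b2] at b1
    exact le_trans (le_of_eq (by ring)) ((mul_le_mul_of_nonneg_left b1
      (show 0 ≤ 720 * (m + 1) * exp (ε * m) * 2 ^ e by positivity)).trans_eq (by ring))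
  · have b1 : ∑ b, σ b = cnt (wd 3 (4 * m) n) := by
      rw [mul_comm, ← hPS 4 le_rfl, PS, ← Fin.sum_univ_eq_sum_range]
      exact sum_congr rfl fun b _ => by rw [ex, dif_pos b.2]
    rw [prod_div_distrib, prod_pow_eq_pow_sum, b1, prod_const, card_univ, Fintype.card_fin,
      div_pow (_ * 2 ^ e), mul_pow _ (2 ^ e), mul_div_assoc, div_eq_mul_one_div (_ ^ 4)]
    refine mul_le_mul_of_nonneg_left ?_ (by positivity)
    generalize cnt (wd 3 (4 * m) n) = K at a3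
    rw [div_le_div_iff₀ (by positivity) (by positivity), one_mul]
    refine le_of_pow_le_pow_left₀ three_ne_zero (by positivity) ?_
    have b2 : ((2 : ℝ) ^ (4 * m)) ^ 4 ≤ (2 ^ e * 3 ^ K) ^ 4 := by
      exact_mod_cast Nat.pow_le_pow_left a3 4
    calc _ = ((25198 / 10000 : ℝ) ^ 3) ^ (4 * m) := by
          simp only [← pow_mul]
          congr 1
          ring
      _ ≤ (2 ^ 4) ^ (4 * m) := pow_le_pow_left₀ (by norm_num) (by norm_num) _
      _ ≤ (2 ^ e) ^ 4 * (3 ^ 4) ^ K := by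
          rw [pow_right_comm 2 4, pow_right_comm 3 4, ← mul_pow]
          exact b2
      _ ≤ ((2 ^ e) ^ 4) ^ 3 * (((75 / 52) ^ 4) ^ 3) ^ K := by
          refine mul_le_mul (le_self_pow₀ (one_le_pow₀ (one_le_pow₀ one_le_two)) three_ne_zero)
            (pow_le_pow_left₀ (by norm_num) (by norm_num) _) (by positivity) (by positivity)
      _ = _ := by rw [mul_pow, pow_right_comm _ 3 K]
  · rw [hPS _ b.2]
    exact (cnt_le _).trans (by nlinarith [b.2])
  · rw [hPS _ b.2, show m * (b + 1) = m + m * b by ring, cnt_add]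
    refine le_trans (Nat.le_of_mul_le_mul_left (le_trans ?_ a2) (Nat.two_pow_pos e))
      (Nat.pow_le_pow_right (by norm_num) (Nat.le_add_right _ _))
    rw [← pow_add]
    exact Nat.pow_le_pow_right two_pos (by omega)
  · have b1 := (mem_filter.1 hv).2
    simp only [κ, g, Prod.mk.injEq] at b1
    rw [← b1.2.1, ← b1.2.2]
    exact ⟨b1.1, h2 v, (h3 v _ _).trans (by rw [b1.1])⟩

end Pool.Agent.Lib.MP_dee342_nt.Ex
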