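import Pool.Agent.Lib.MP_dee342_nt.CountMain
import Pool.Agent.Lib.MP_dee342_nt.Ex.Core

/-! The explicit exponent `0.9405` for integers whose orbit stays large. -/

set_option autoImplicit false

namespace Pool.Agent.Lib.MP_dee342_nt.Ex

open Finset Real Pool.Agent.Lib.MP_dee342_nt.Count

theorem bad_step {l q j : ℕ} {a : ℤ} (hq : q ≤ l) (hj : j + q < 2 * l) (h1 : |a| ≤ 2 ^ l)
    (h2 : 2 ^ (l - q) < |(T 3)^[j] a|) : 2 ^ j ≤ 2 ^ (q + 1) * 3 ^ cnt (wd 3 j a) := by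
  have h3 := (abs_le.mp (iter_near (a := 3) (by decide) le_rfl j a)).2
  simp only [Nat.cast_ofNat] at h3
  have h4 := cnt_le (wd 3 j a)
  set c := cnt (wd 3 j a)
  have h5 : (0 : ℤ) ≤ 3 ^ c := by positivity
  have h6 := mul_le_mul_of_nonneg_left h1 h5
  have h7 := mul_lt_mul_of_pos_left h2 (show (0 : ℤ) < 2 ^ j by positivity)
  rcases le_total (j - c) l with h | h
  · have h8 := mul_le_mul_of_nonneg_left (pow_le_pow_right₀ (show (1 : ℤ) ≤ 2 by norm_num) h) h5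
    have h9 : (2 : ℤ) ^ l = 2 ^ q * 2 ^ (l - q) := by rw [← pow_add]; congr 1; omega
    have h10 : (2 : ℤ) ^ j * 2 ^ (l - q) ≤ 2 ^ (q + 1) * 3 ^ c * 2 ^ (l - q) := by
      rw [pow_succ]
      rw [h9] at h6 h8
      linarith
    have h11 := le_of_mul_le_mul_right h10 (by positivity)
    exact_mod_cast h11
  · exfalso
    have h8 := mul_le_mul_of_nonneg_left (pow_le_pow_right₀ (show (1 : ℤ) ≤ 2 by norm_num) h) h5
    have h9 : (3 : ℤ) ^ c ≤ 2 ^ (2 * c) := by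
      rw [pow_mul]
      exact pow_le_pow_left₀ (by norm_num) (by norm_num) c
    have h10 := mul_le_mul_of_nonneg_right h9 (show (0 : ℤ) ≤ 2 ^ (j - c) by positivity)
    have h11 : (2 : ℤ) ^ (j + (l - q)) < 2 ^ (2 * c + (j - c) + 1) := by
      rw [pow_add, pow_succ, pow_add]
      linarith
    have h12 := (pow_lt_pow_iff_right₀ (show (1 : ℤ) < 2 by norm_num)).mp h11
    omega

theorem bad2 : ∃ m ≥ 1, ∃ l₀ : ℕ, ∃ d > 0, ∃ C ≥ 0, d ≤ 0.9405 * log 2 / 2 ∧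
    ∀ l ≥ l₀, ∀ A : Finset ℤ, (∀ a ∈ A, |a| ≤ 2 ^ l ∧
      2 ^ (l - l / m) < |(T 3)^[l / 3 + 1] a| ∧ 2 ^ (l - l / m) < |(T 3)^[4 * (l / 3 + 1)] a|) →
      (A.card : ℝ) ≤ C * exp ((0.9405 * log 2 - d) * l) := by
  have l2 := log_pos (one_lt_two (α := ℝ))
  obtain ⟨δ, hδ⟩ : ∃ δ : ℝ, δ = (0.9405 - 79 / 84) / 4 * log 2 := ⟨_, rfl⟩
  have hd : 0 < δ := by rw [hδ]; exact mul_pos (by norm_num) l2
  obtain ⟨m₁, hm⟩ := core4 δ hd
  refine ⟨1000000, by norm_num, 3 * m₁ + 40, δ, hd,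
    5760 * ((Nat.factorial 13 : ℕ) / δ ^ 13) * 4 * 8, by positivity, by rw [hδ]; linarith,
    fun l hl A hA => ?_⟩
  have h0 := hm (l / 3 + 1) (by omega) (l / 1000000 + 1) (by omega) A fun a ha =>
    ⟨(hA a ha).1.trans (pow_le_pow_right₀ (by norm_num) (by omega)),
      bad_step (by omega) (by omega) (hA a ha).1 (hA a ha).2.1,
      bad_step (by omega) (by omega) (hA a ha).1 (hA a ha).2.2⟩
  refine h0.trans ?_
  have hM : ((l / 3 + 1 : ℕ) : ℝ) + 1 ≤ l := by exact_mod_cast (by omega : l / 3 + 1 + 1 ≤ l)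
  have hM3 : 3 * ((l / 3 + 1 : ℕ) : ℝ) ≤ l + 3 := by
    exact_mod_cast (by omega : 3 * (l / 3 + 1) ≤ l + 3)
  have hq : 1000000 * ((l / 1000000 : ℕ) : ℝ) ≤ l := by
    exact_mod_cast (by omega : 1000000 * (l / 1000000) ≤ l)
  have hl0 : (0 : ℝ) ≤ l := Nat.cast_nonneg l
  generalize l / 3 + 1 = M at *
  generalize l / 1000000 = q at *
  have e1 : ((M : ℝ) + 1) ^ 13 ≤ (Nat.factorial 13 : ℕ) / δ ^ 13 * exp (δ * l) := by
    have h1 := pow_div_factorial_le_exp (δ * l) (by positivity) 13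
    rw [div_le_iff₀ (by positivity), mul_pow] at h1
    refine (pow_le_pow_left₀ (by positivity) hM 13).trans ?_
    rw [div_mul_eq_mul_div, le_div_iff₀ (by positivity)]
    linarith
  have e2 : exp (δ * M) ≤ exp (δ * l) :=
    exp_le_exp.mpr (mul_le_mul_of_nonneg_left (by linarith) hd.le)
  have e3 : (4 : ℝ) ^ (q + 1) ≤ 4 * exp (δ * l) := by
    have h1 : (4 : ℝ) = exp (2 * log 2) := by
      rw [two_mul, exp_add, exp_log (by norm_num)]; norm_num
    have h2 : (4 : ℝ) ^ q ≤ exp (δ * l) := by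
      rw [h1, ← exp_nat_mul, exp_le_exp, hδ]
      nlinarith [mul_le_mul_of_nonneg_right hq l2.le, mul_nonneg hl0 l2.le]
    rw [pow_succ]
    linarith
  have e4 : (70681 / 10000 : ℝ) ^ M ≤ 8 * exp (79 / 84 * log 2 * l) := by
    have h1 : log (70681 / 10000) ≤ 79 / 28 * log 2 := by
      have h2 := log_le_log (by positivity)
        (show (70681 / 10000 : ℝ) ^ 28 ≤ 2 ^ 79 by norm_num)
      rw [log_pow, log_pow] at h2
      push_cast at h2
      linarith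
    have h3 : (8 : ℝ) = exp (3 * log 2) := by
      rw [show (3 : ℝ) * log 2 = log 2 + log 2 + log 2 by ring, exp_add, exp_add,
        exp_log (by norm_num)]
      norm_num
    rw [← exp_log (show (0 : ℝ) < 70681 / 10000 by norm_num), ← exp_nat_mul, h3, ← exp_add,
      exp_le_exp]
    nlinarith [mul_le_mul_of_nonneg_left h1 (Nat.cast_nonneg (α := ℝ) M),
      mul_le_mul_of_nonneg_right hM3 l2.le]
  have e5 : exp ((0.9405 * log 2 - δ) * l) =
      exp (δ * l) * exp (δ * l) * exp (δ * l) * exp (79 / 84 * log 2 * l) := by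
    rw [← exp_add, ← exp_add, ← exp_add, hδ]
    congr 1
    ring
  rw [e5]
  calc 5760 * ((M : ℝ) + 1) ^ 13 * exp (δ * M) * 4 ^ (q + 1) * (70681 / 10000) ^ M
      ≤ 5760 * ((Nat.factorial 13 : ℕ) / δ ^ 13 * exp (δ * l)) * exp (δ * l) * (4 * exp (δ * l)) *
        (8 * exp (79 / 84 * log 2 * l)) := by gcongr
    _ = _ := by ring

end Pool.Agent.Lib.MP_dee342_nt.Ex
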