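import Mathlib

/-! The large sieve for well spaced points of the unit circle, and its fourth-moment form. -/

set_option autoImplicit false

noncomputable section

namespace Pool.Agent.Lib.MP_dee342_nt.Ex

open Complex Finset MeasureTheory
open scoped Real

lemma bls_g_lower {δ k : ℝ} (hδ : 0 < δ) (hk : 0 ≤ k) (hkδ : k * δ ≤ 1) :
    δ / 2 ≤ ‖∫ t in (0:ℝ)..δ, Complex.exp (I * k * t)‖ := by
  have hc : Continuous fun t : ℝ => Complex.exp (I * k * t) := by fun_prop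
  have h1 := intervalIntegral.intervalIntegral_re (𝕜 := ℂ) (μ := volume) (hc.intervalIntegrable 0 δ)
  have h2 : ∫ _ in (0:ℝ)..δ, (1 / 2 : ℝ) ≤ ∫ t in (0:ℝ)..δ, RCLike.re (Complex.exp (I * k * t)) := by
    refine intervalIntegral.integral_mono_on hδ.le (by simp)
      ((RCLike.continuous_re.comp hc).intervalIntegrable 0 δ) fun t ht => ?_
    have e : I * k * t = ((k * t : ℝ) : ℂ) * I := by push_cast; ring
    rw [e]
    show _ ≤ (Complex.exp (((k * t : ℝ) : ℂ) * I)).re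
    rw [Complex.exp_ofReal_mul_I_re]
    have a1 : 0 ≤ k * t := mul_nonneg hk ht.1
    have a2 : k * t ≤ 1 := (mul_le_mul_of_nonneg_left ht.2 hk).trans hkδ
    have a3 := Real.one_sub_sq_div_two_le_cos (x := k * t)
    nlinarith
  rw [h1] at h2
  simp only [intervalIntegral.integral_const, sub_zero, smul_eq_mul] at h2
  have h3 := RCLike.re_le_norm (∫ t in (0:ℝ)..δ, Complex.exp (I * k * t))
  linarith

lemma bls_cs {δ : ℝ} (hδ : 0 < δ) {f : ℝ → ℂ} (hf : Continuous f) :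
    ‖∫ t in (0:ℝ)..δ, f t‖ ^ 2 ≤ δ * ∫ t in (0:ℝ)..δ, ‖f t‖ ^ 2 := by
  set A : ℝ := ∫ t in (0:ℝ)..δ, ‖f t‖ with hA
  set B : ℝ := ∫ t in (0:ℝ)..δ, ‖f t‖ ^ 2 with hB
  have h1 : ‖∫ t in (0:ℝ)..δ, f t‖ ≤ A := intervalIntegral.norm_integral_le_integral_norm hδ.le
  have hn : Continuous fun t => ‖f t‖ := hf.norm
  have h2 : 0 ≤ ∫ t in (0:ℝ)..δ, (δ * ‖f t‖ - A) ^ 2 :=
    intervalIntegral.integral_nonneg_of_forall hδ.le fun _ => sq_nonneg _
  have h3 : ∫ t in (0:ℝ)..δ, (δ * ‖f t‖ - A) ^ 2 = δ ^ 2 * B - 2 * δ * A * A + δ * A ^ 2 := by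
    have e : ∀ t, (δ * ‖f t‖ - A) ^ 2 = δ ^ 2 * ‖f t‖ ^ 2 - 2 * δ * A * ‖f t‖ + A ^ 2 := fun t => by ring
    simp_rw [e]
    rw [intervalIntegral.integral_add (by apply Continuous.intervalIntegrable; fun_prop)
      (by apply Continuous.intervalIntegrable; fun_prop),
      intervalIntegral.integral_sub (by apply Continuous.intervalIntegrable; fun_prop)
      (by apply Continuous.intervalIntegrable; fun_prop),
      intervalIntegral.integral_const_mul, intervalIntegral.integral_const_mul]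
    simp only [intervalIntegral.integral_const, sub_zero, smul_eq_mul]
    rfl
  have h4 : A ^ 2 ≤ δ * B := by
    rw [h3] at h2
    have : 0 ≤ δ * (δ * B - A ^ 2) := by nlinarith
    have := nonneg_of_mul_nonneg_right this hδ
    linarith
  exact (pow_le_pow_left₀ (norm_nonneg _) h1 2).trans h4

lemma bls_orth (n m : ℕ) :
    ∫ t in (-π)..(3 * π), Complex.exp (I * ((n : ℂ) - m) * t) = if n = m then (4 * π : ℂ) else 0 := by
  split_ifs with h
  · subst h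
    simp only [sub_self, mul_zero, zero_mul, Complex.exp_zero, intervalIntegral.integral_const]
    simp only [real_smul, mul_one]
    push_cast
    ring
  · have hc : I * ((n : ℂ) - m) ≠ 0 := by
      refine mul_ne_zero I_ne_zero (sub_ne_zero.2 ?_)
      exact_mod_cast h
    rw [integral_exp_mul_complex hc]
    have e : I * ((n : ℂ) - m) * ((3 * π : ℝ) : ℂ) =
        I * ((n : ℂ) - m) * ((-π : ℝ) : ℂ) + ((2 * ((n : ℤ) - m) : ℤ) : ℂ) * (2 * π * I) := by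
      push_cast; ring
    rw [e, Complex.exp_add, Complex.exp_int_mul_two_pi_mul_I]
    simp

lemma bls_parseval (J : Finset ℕ) (b : ℕ → ℂ) :
    ∫ t in (-π)..(3 * π), ‖∑ n ∈ J, b n * Complex.exp (I * n * t)‖ ^ 2 = 4 * π * ∑ n ∈ J, ‖b n‖ ^ 2 := by
  have e : ∀ t : ℝ, ((‖∑ n ∈ J, b n * Complex.exp (I * n * t)‖ ^ 2 : ℝ) : ℂ) =
      ∑ n ∈ J, ∑ m ∈ J, b n * (starRingEnd ℂ) (b m) * Complex.exp (I * ((n : ℂ) - m) * t) := by
    intro t
    push_cast
    rw [← Complex.mul_conj', map_sum, sum_mul_sum]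
    refine sum_congr rfl fun n _ => sum_congr rfl fun m _ => ?_
    rw [map_mul, ← Complex.exp_conj]
    have e2 : I * ((n : ℂ) - m) * t = I * n * t + (starRingEnd ℂ) (I * m * t) := by
      simp only [map_mul, Complex.conj_I, Complex.conj_natCast, Complex.conj_ofReal]
      ring
    rw [e2, Complex.exp_add]
    ring
  apply Complex.ofReal_injective
  rw [← intervalIntegral.integral_ofReal]
  simp_rw [e]
  rw [intervalIntegral.integral_finsetSum fun n _ => by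
    apply Continuous.intervalIntegrable; fun_prop]
  push_cast
  rw [mul_sum]
  refine sum_congr rfl fun n hn => ?_
  rw [intervalIntegral.integral_finsetSum fun m _ => by
    apply Continuous.intervalIntegrable; fun_prop]
  simp_rw [intervalIntegral.integral_const_mul, bls_orth]
  rw [sum_eq_single n (fun m _ hm => by rw [if_neg (Ne.symm hm), mul_zero]) (fun h => absurd hn h),
    if_pos rfl, Complex.mul_conj']
  ring

lemma bls_disj {ι : Type} (E : Finset ι) (θ : ι → ℝ) {δ : ℝ} (hδ : 0 < δ) (hδ1 : δ ≤ 1)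
    (hθ : ∀ e ∈ E, -π ≤ θ e ∧ θ e ≤ π) (hs : ∀ e ∈ E, ∀ e' ∈ E, e ≠ e' → δ ≤ |θ e - θ e'|)
    {h : ℝ → ℝ} (hc : Continuous h) (h0 : ∀ t, 0 ≤ h t) :
    ∑ e ∈ E, ∫ t in (0:ℝ)..δ, h (θ e + t) ≤ ∫ t in (-π)..(3 * π), h t := by
  have hpi := Real.pi_gt_three
  have e1 : ∀ e ∈ E, ∫ t in (0:ℝ)..δ, h (θ e + t) = ∫ t in Set.Ioc (θ e) (θ e + δ), h t := by
    intro e _
    rw [intervalIntegral.integral_comp_add_left, add_zero, intervalIntegral.integral_of_le (by linarith)]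
  rw [sum_congr rfl e1, ← integral_biUnion_finset E (fun _ _ => measurableSet_Ioc) ?_
    (fun e _ => hc.integrableOn_Ioc), intervalIntegral.integral_of_le (by linarith)]
  · refine setIntegral_mono_set hc.integrableOn_Ioc (Filter.Eventually.of_forall h0)
      (Filter.Eventually.of_forall ?_)
    intro x hx
    obtain ⟨e, he, hx⟩ := Set.mem_iUnion₂.1 hx
    exact ⟨by linarith [(hθ e he).1, hx.1], by linarith [(hθ e he).2, hx.2]⟩
  · intro e he e' he' hne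
    have := hs e he e' he' hne
    refine Set.disjoint_left.2 fun x hx hx' => ?_
    exact absurd this (not_le.2 (abs_lt.2 ⟨by linarith [hx.1, hx'.2, hx.2, hx'.1],
      by linarith [hx.1, hx'.2, hx.2, hx'.1]⟩))

lemma bls_chord (x y : ℝ) : ‖Complex.exp (x * I) - Complex.exp (y * I)‖ ≤ |x - y| := by
  have e : Complex.exp (x * I) - Complex.exp (y * I) =
      Complex.exp (y * I) * (Complex.exp (I * ((x - y : ℝ) : ℂ)) - 1) := by
    rw [mul_sub, mul_one, ← Complex.exp_add]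
    congr 2
    push_cast
    ring
  rw [e, norm_mul, Complex.norm_exp_ofReal_mul_I, one_mul]
  exact Real.norm_exp_I_mul_ofReal_sub_one_le

/-- Put `θ e = arg (v e)`, so `δ ≤ ‖v e - v e'‖ ≤ |θ e - θ e'|`. Let `g k = ∫ t in 0..δ, exp (i k t)`; its real
part is at least `δ cos 1 ≥ δ / 2` for `0 ≤ k ≤ H`. With `b n = a n / g (n - N)` and
`F t = ∑ b n exp (i n t)` one has `∑ a n * v e ^ n = ∫ t in 0..δ, F (θ e + t) exp (-i N t)`, whose square is
at most `δ ∫ t in θ e..θ e + δ, ‖F t‖ ^ 2` (Cauchy-Schwarz). The intervals are disjoint and lie in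
`(-π, 3 π]`, and `∫ t in -π..3 π, ‖F t‖ ^ 2 = 4 π ∑ ‖b n‖ ^ 2`. -/
theorem ls_dual {ι : Type} (E : Finset ι) (v : ι → ℂ) (hv : ∀ e ∈ E, ‖v e‖ = 1) {δ : ℝ} (hδ : 0 < δ)
    (hδ1 : δ ≤ 1) (hs : ∀ e ∈ E, ∀ e' ∈ E, e ≠ e' → δ ≤ ‖v e - v e'‖) (J : Finset ℕ) (N H : ℕ)
    (hJ : ∀ n ∈ J, N ≤ n ∧ n ≤ N + H) (hH : H * δ ≤ 1) (a : ℕ → ℂ) :
    ∑ e ∈ E, ‖∑ n ∈ J, a n * v e ^ n‖ ^ 2 ≤ 60 / δ * ∑ n ∈ J, ‖a n‖ ^ 2 := by
  set θ : ι → ℝ := fun e => arg (v e) with hθ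
  have hvθ : ∀ e ∈ E, v e = Complex.exp (θ e * I) := by
    intro e he
    have := Complex.norm_mul_exp_arg_mul_I (v e)
    rw [hv e he] at this
    simpa using this.symm
  set g : ℕ → ℂ := fun n => ∫ t in (0:ℝ)..δ, Complex.exp (I * ((n - N : ℝ) : ℂ) * t) with hg
  have hgl : ∀ n ∈ J, δ / 2 ≤ ‖g n‖ := by
    intro n hn
    have a1 : (N : ℝ) ≤ n := by exact_mod_cast (hJ n hn).1
    have a2 : (n : ℝ) ≤ N + H := by exact_mod_cast (hJ n hn).2
    exact bls_g_lower hδ (by linarith) (by nlinarith)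
  have hg0 : ∀ n ∈ J, g n ≠ 0 := fun n hn => norm_pos_iff.1 (lt_of_lt_of_le (by linarith) (hgl n hn))
  set b : ℕ → ℂ := fun n => a n / g n with hb
  set F : ℝ → ℂ := fun t => ∑ n ∈ J, b n * Complex.exp (I * n * t) with hF
  have hFc : Continuous F := by rw [hF]; fun_prop
  have h1 : ∀ e ∈ E, ‖∑ n ∈ J, a n * v e ^ n‖ ^ 2 ≤ δ * ∫ t in (0:ℝ)..δ, ‖F (θ e + t)‖ ^ 2 := by
    intro e he
    have e1 : ∑ n ∈ J, a n * v e ^ n =
        ∫ t in (0:ℝ)..δ, F (θ e + t) * Complex.exp (((-(N * t) : ℝ) : ℂ) * I) := by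
      simp only [hF, sum_mul]
      rw [intervalIntegral.integral_finsetSum fun n _ => by
        apply Continuous.intervalIntegrable; fun_prop]
      refine sum_congr rfl fun n hn => ?_
      have e2 : ∀ t : ℝ, b n * Complex.exp (I * n * ((θ e + t : ℝ) : ℂ)) *
          Complex.exp (((-(N * t) : ℝ) : ℂ) * I) =
          b n * v e ^ n * Complex.exp (I * ((n - N : ℝ) : ℂ) * t) := by
        intro t
        rw [hvθ e he, ← Complex.exp_nat_mul, mul_assoc (b n), mul_assoc (b n), ← Complex.exp_add,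
          ← Complex.exp_add]
        congr 2
        push_cast
        ring
      simp_rw [e2]
      rw [intervalIntegral.integral_const_mul]
      show _ = a n / g n * v e ^ n * g n
      field_simp [hg0 n hn]
    rw [e1]
    refine (bls_cs hδ (by fun_prop)).trans (le_of_eq ?_)
    simp only [norm_mul, Complex.norm_exp_ofReal_mul_I, mul_one]
  have h2 : ∑ e ∈ E, ∫ t in (0:ℝ)..δ, ‖F (θ e + t)‖ ^ 2 ≤ ∫ t in (-π)..(3 * π), ‖F t‖ ^ 2 := by
    refine bls_disj E θ hδ hδ1 (fun e _ => ⟨(neg_pi_lt_arg _).le, arg_le_pi _⟩) ?_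
      (h := fun t => ‖F t‖ ^ 2) (by fun_prop) (fun _ => sq_nonneg _)
    intro e he e' he' hne
    refine (hs e he e' he' hne).trans ?_
    rw [hvθ e he, hvθ e' he']
    exact bls_chord _ _
  have h3 : ∫ t in (-π)..(3 * π), ‖F t‖ ^ 2 = 4 * π * ∑ n ∈ J, ‖b n‖ ^ 2 := bls_parseval J b
  have h4 : ∑ n ∈ J, ‖b n‖ ^ 2 ≤ 4 / δ ^ 2 * ∑ n ∈ J, ‖a n‖ ^ 2 := by
    rw [mul_sum]
    refine sum_le_sum fun n hn => ?_
    have a1 : ‖b n‖ ≤ ‖a n‖ / (δ / 2) := by
      show ‖a n / g n‖ ≤ _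
      rw [norm_div]
      exact div_le_div_of_nonneg_left (norm_nonneg _) (by linarith) (hgl n hn)
    refine (pow_le_pow_left₀ (norm_nonneg _) a1 2).trans (le_of_eq ?_)
    field_simp
    ring
  have hS : 0 ≤ ∑ n ∈ J, ‖a n‖ ^ 2 := sum_nonneg fun _ _ => sq_nonneg _
  have hpi := Real.pi_lt_d2
  have hpi0 := Real.pi_pos
  calc ∑ e ∈ E, ‖∑ n ∈ J, a n * v e ^ n‖ ^ 2
      ≤ ∑ e ∈ E, δ * ∫ t in (0:ℝ)..δ, ‖F (θ e + t)‖ ^ 2 := sum_le_sum h1
    _ = δ * ∑ e ∈ E, ∫ t in (0:ℝ)..δ, ‖F (θ e + t)‖ ^ 2 := by rw [mul_sum]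
    _ ≤ δ * (4 * π * (4 / δ ^ 2 * ∑ n ∈ J, ‖a n‖ ^ 2)) := by
        refine mul_le_mul_of_nonneg_left (h2.trans ?_) hδ.le
        rw [h3]
        exact mul_le_mul_of_nonneg_left h4 (by positivity)
    _ = 16 * π / δ * ∑ n ∈ J, ‖a n‖ ^ 2 := by field_simp; ring
    _ ≤ 60 / δ * ∑ n ∈ J, ‖a n‖ ^ 2 := by
        refine mul_le_mul_of_nonneg_right ?_ hS
        exact div_le_div_of_nonneg_right (by linarith) hδ.le

theorem l4 {ι κ : Type} (E : Finset ι) (z : ι → ℂ) (hz : ∀ e ∈ E, ‖z e‖ = 1) {δ : ℝ}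
    (hδ : 0 < δ) (hδ1 : δ ≤ 1) (hs : ∀ e ∈ E, ∀ e' ∈ E, e ≠ e' → δ ≤ ‖z e - z e'‖)
    (U : Finset κ) (f : κ → ℕ) (D : ℕ) (hf : ∀ u ∈ U, f u ≤ D) (hD : 2 * D * δ ≤ 1) :
    ∑ e ∈ E, ‖∑ u ∈ U, z e ^ f u‖ ^ 4 ≤ 60 / δ * (((U ×ˢ U) ×ˢ (U ×ˢ U)).filter
      fun p => f p.1.1 + f p.1.2 = f p.2.1 + f p.2.2).card := by
  classical
  let F : ℕ → Finset (κ × κ) := fun n => (U ×ˢ U).filter fun p => f p.1 + f p.2 = n
  have hm : ∀ p ∈ U ×ˢ U, f p.1 + f p.2 ∈ range (2 * D + 1) := fun p hp => by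
    have h1 := hf _ (mem_product.1 hp).1
    have h2 := hf _ (mem_product.1 hp).2
    exact mem_range.2 (by omega)
  have h1 : ∀ e, ‖∑ u ∈ U, z e ^ f u‖ ^ 4 =
      ‖∑ n ∈ range (2 * D + 1), ((F n).card : ℂ) * z e ^ n‖ ^ 2 := fun e => by
    rw [show 4 = 2 * 2 from rfl, pow_mul, ← norm_pow, sq (∑ u ∈ U, _), sum_mul_sum, ← sum_product',
      ← sum_fiberwise_of_maps_to hm]
    congr 2
    refine sum_congr rfl fun n _ => ?_
    rw [sum_congr rfl (g := fun _ => z e ^ n) fun p hp => by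
      rw [← pow_add, (mem_filter.1 hp).2], sum_const, nsmul_eq_mul]
  rw [sum_congr rfl fun e _ => h1 e]
  refine (ls_dual E z hz hδ hδ1 hs _ 0 (2 * D) (fun n hn => ⟨Nat.zero_le _, by
    have := mem_range.1 hn
    omega⟩) (by exact_mod_cast hD) _).trans (mul_le_mul_of_nonneg_left (le_of_eq ?_) (by positivity))
  rw [card_eq_sum_card_fiberwise (f := fun p : (κ × κ) × κ × κ => f p.1.1 + f p.1.2)
    (t := range (2 * D + 1)) fun p hp => hm _ (mem_product.1 (mem_filter.1 hp).1).1, Nat.cast_sum]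
  refine sum_congr rfl fun n _ => ?_
  rw [Complex.norm_natCast, sq, ← Nat.cast_mul, ← card_product]
  congr 2
  ext p
  simp only [F, mem_product, mem_filter]
  constructor
  · rintro ⟨⟨a1, a2⟩, a3, a4⟩
    exact ⟨⟨⟨a1, a3⟩, a2.trans a4.symm⟩, a2⟩
  · rintro ⟨⟨⟨a1, a3⟩, a4⟩, a2⟩
    exact ⟨⟨a1, a2⟩, a3, a4.symm.trans a2⟩

end Pool.Agent.Lib.MP_dee342_nt.Ex
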