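import Pool.Agent.Lib.MP_dee342_nt.Ex.Bad

/-! The two forms in which the explicit exponent is used. -/

set_option autoImplicit false

namespace Pool.Agent.Lib.MP_dee342_nt.Ex

open Finset Real Pool.Agent.Lib.MP_dee342_nt.Count

theorem bad_all : ∃ m ≥ 1, ∃ d > 0, ∃ C ≥ 0, ∀ (l : ℕ) (A : Finset ℤ),
    (∀ a ∈ A, |a| ≤ 2 ^ l ∧ ∀ j ≤ 2 * l, 2 ^ (l - l / m) < |(T 3)^[j] a|) →
      (A.card : ℝ) ≤ C * exp ((0.9405 * log 2 - d) * l) := by
  obtain ⟨m, hm, l₀, d, hd, C, hC, hd2, h⟩ := bad2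
  have l2 := log_pos (one_lt_two (α := ℝ))
  refine ⟨m, hm, d, hd, C + 3 * 2 ^ (max l₀ 6), by positivity, fun l A hA => ?_⟩
  have e1 : 1 ≤ exp ((0.9405 * log 2 - d) * l) :=
    one_le_exp (mul_nonneg (by linarith) (Nat.cast_nonneg l))
  have e2 : (0 : ℝ) ≤ 3 * 2 ^ (max l₀ 6) := by positivity
  rw [add_mul]
  rcases le_total (max l₀ 6) l with hl | hl
  · have h6 : 6 ≤ l := le_of_max_le_right hl
    refine le_add_of_le_of_nonneg (h l (le_of_max_le_left hl) A fun a ha =>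
      ⟨(hA a ha).1, (hA a ha).2 _ (by omega), (hA a ha).2 _ (by omega)⟩) (by positivity)
  · refine le_add_of_nonneg_of_le (by positivity) ((card_box l A fun a ha => (hA a ha).1).trans
      (le_trans ?_ (le_mul_of_one_le_right e2 e1)))
    exact mul_le_mul_of_nonneg_left (pow_le_pow_right₀ one_le_two hl) (by norm_num)

theorem three : ∃ C : ℝ, ∀ S : Set ℤ, Set.MapsTo (T 3) S S → Set.InjOn (T 3) S →
    ∀ x : ℝ, 1 ≤ x → ({n | n ∈ S ∧ |(n : ℝ)| ≤ x}.ncard : ℝ) ≤ C * x ^ (0.9405 : ℝ) := by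
  classical
  obtain ⟨m, hm, l₀, d, hd, C, hC, hd2, h⟩ := bad2
  have l2 := log_pos (one_lt_two (α := ℝ))
  set H : ℝ := 0.9405 * log 2 with hH
  have hH0 : 0 < H := by positivity
  have hdH : d < H := by linarith
  obtain ⟨C', hC', hrec⟩ := recur (r := exp ((H - d) * (1 : ℕ))) (b := 2)
    (one_lt_exp_iff.mpr (mul_pos (by linarith) (by norm_num))) one_le_two hC m l₀ hm
  refine ⟨C' * exp ((H - d) * (1 : ℕ)), fun S hS1 hS2 x hx => ?_⟩
  let A : ℕ → Finset ℤ := fun L => (Icc (-2 ^ L) (2 ^ L)).filter (· ∈ S)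
  have hA : ∀ L n, n ∈ A L ↔ |n| ≤ 2 ^ L ∧ n ∈ S := fun L n => by
    simp only [A, mem_filter, mem_Icc, abs_le]
  have hx2 : x ^ (H / log 2 - d / log 2) ≤ x ^ (0.9405 : ℝ) := by
    refine rpow_le_rpow_of_exponent_le hx ?_
    rw [hH, mul_div_assoc, div_self l2.ne', mul_one]
    linarith [div_pos hd l2]
  refine (final (E := 1) le_rfl hdH.le hC' (fun D => (A D).card)
    (hrec _ (fun D => ?_) fun L hL => ?_) hx).elim fun D h3 => le_trans
      (ncard_le fun n hn => (hA _ n).mpr ⟨mem_box hn.2 (by simpa using h3.1), hn.1⟩)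
      (h3.2.trans (mul_le_mul_of_nonneg_left hx2 (by positivity)))
  · exact card_box _ _ fun n hn => ((hA _ n).mp hn).1
  set L' := L - L / m with hL'
  have hin : ∀ j, ((A L).filter fun n => |(T 3)^[j] n| ≤ 2 ^ L').card ≤ (A L').card := fun j =>
    card_le_card_of_injOn (T 3)^[j] (fun n hn => mem_coe.mpr ((hA _ _).mpr
      ⟨(mem_filter.mp hn).2, hS1.iterate j ((hA _ _).mp (mem_filter.mp hn).1).2⟩))
      ((hS2.iterate hS1 j).mono fun n hn => ((hA _ _).mp (mem_filter.mp hn).1).2)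
  have h5 := h L hL ((A L).filter fun n => ¬ |(T 3)^[L / 3 + 1] n| ≤ 2 ^ L' ∧
      ¬ |(T 3)^[4 * (L / 3 + 1)] n| ≤ 2 ^ L') fun n hn =>
    ⟨((hA _ _).mp (mem_filter.mp hn).1).1, not_le.mp (mem_filter.mp hn).2.1,
      not_le.mp (mem_filter.mp hn).2.2⟩
  have h6 : (A L).card ≤ 2 * (A L').card + ((A L).filter fun n =>
      ¬ |(T 3)^[L / 3 + 1] n| ≤ 2 ^ L' ∧ ¬ |(T 3)^[4 * (L / 3 + 1)] n| ≤ 2 ^ L').card := by
    have h7 : A L ⊆ (((A L).filter fun n => |(T 3)^[L / 3 + 1] n| ≤ 2 ^ L') ∪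
        (A L).filter fun n => |(T 3)^[4 * (L / 3 + 1)] n| ≤ 2 ^ L') ∪
        (A L).filter fun n => ¬ |(T 3)^[L / 3 + 1] n| ≤ 2 ^ L' ∧
          ¬ |(T 3)^[4 * (L / 3 + 1)] n| ≤ 2 ^ L' := by
      intro n hn
      simp only [mem_union, mem_filter, hn, true_and]
      tauto
    have h8 := (card_le_card h7).trans ((card_union_le _ _).trans
      (Nat.add_le_add_right (card_union_le _ _) _))
    have := hin (L / 3 + 1)
    have := hin (4 * (L / 3 + 1))
    omega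
  have h7 : exp ((H - d) * L) = exp ((H - d) * (1 : ℕ)) ^ L := by
    rw [← exp_nat_mul, Nat.cast_one, mul_one, mul_comm]
  refine le_trans (by exact_mod_cast h6) (add_le_add_right (h5.trans (by rw [h7])) _)

end Pool.Agent.Lib.MP_dee342_nt.Ex
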