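import Pool.Agent.Lib.MP_dee342_nt.AbCycle
import Pool.Agent.Lib.MP_dee342_nt.Ex.Three

/-! The explicit exponent for orbits that stay above `N`, and in the cycle form. -/

set_option autoImplicit false

namespace Pool.Agent.Lib.MP_dee342_nt.Ex

open Finset Real Pool.Agent.Lib.MP_dee342_nt.Ab

theorem count : ∃ γ > (0.0595 : ℝ), ∃ q l₀ : ℕ, ∃ K ≥ 0,
    ∀ (L : ℕ) (x N : ℝ) (A : Finset ℤ), 0 < x → x ≤ 2 ^ L → 2 ^ l₀ ≤ N →
      (∀ n ∈ A, |(n : ℝ)| ≤ x ∧ ∀ j ≤ q * (L + 1) + 6 * L + 4, N < |(((T 3)^[j] n : ℤ) : ℝ)|) →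
      (A.card : ℝ) ≤ K * x * N ^ (-γ) := by
  classical
  obtain ⟨m, hm, d, hd, C₀, hC₀, hbad⟩ := bad_all
  have l2 := log_pos (one_lt_two (α := ℝ))
  have hH : 0.9405 * log 2 / log 2 = 0.9405 := mul_div_cancel_right₀ _ l2.ne'
  generalize 0.9405 * log 2 = H at *
  have hm' : (1 : ℝ) ≤ m := by exact_mod_cast hm
  obtain ⟨ρ, h0, h1, h4m⟩ : ∃ ρ : ℝ, 0 ≤ ρ ∧ ρ < 1 ∧ 1 / 2 ≤ ρ ^ (4 * m) := by
    have a1 : (0 : ℝ) < 1 / (8 * m) := by positivity
    have a2 : (1 : ℝ) / (8 * m) ≤ 1 := (div_le_one (by positivity)).2 (by linarith)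
    refine ⟨1 + -(1 / (8 * m)), by linarith, by linarith,
      le_trans (le_of_eq ?_) (one_add_mul_le_pow (by linarith) _)⟩
    push_cast
    field_simp
    norm_num
  have h4 := h4m.trans (pow_le_pow_of_le_one h0 h1.le (show 4 ≤ 4 * m by omega))
  obtain ⟨q, hq⟩ := exists_pow_lt_of_lt_one (show (0 : ℝ) < 1 / 3 by norm_num) h1
  have hq1 : 1 ≤ q := Nat.pos_of_ne_zero fun c => by rw [c] at hq; norm_num at hq
  have hq' : 3 * ρ ^ q ≤ 1 := by linarith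
  obtain ⟨C, hC, hfib⟩ := fiber h0 h1 hq1 hq'
  generalize ⌈(1 - ρ)⁻¹⌉₊ = c₀ at hfib
  have r0 := exp_pos (-d / 2)
  have hsum := summable_pow_mul_geometric_of_norm_lt_one (R := ℝ) 3 (r := exp (-d / 2))
    (by rw [norm_of_nonneg r0.le]; exact exp_lt_one_iff.2 (by linarith))
  have S0 : 0 ≤ ∑' l : ℕ, (l : ℝ) ^ 3 * exp (-d / 2) ^ l := tsum_nonneg fun l => by positivity
  have g0 : 0 < d / 2 / log 2 := by positivity
  refine ⟨1 - H / log 2 + d / 2 / log 2, by linarith, q, 3 * m + c₀ + 8,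
    2916 * C₀ * C * ∑' l : ℕ, (l : ℝ) ^ 3 * exp (-d / 2) ^ l, by positivity,
    fun L x N A hx hL hN hA => ?_⟩
  have N1 : 1 ≤ N := (one_le_pow₀ one_le_two).trans hN
  choose! s hs hng hch using fun n (hn : n ∈ A) =>
    exists_bad (h := fun i => ((T 3)^[i] n).natAbs) (L := L) h0 h1 h4 hq'
      (by exact_mod_cast ((nab n).le.trans ((hA n hn).1.trans hL) : ((n.natAbs : ℕ) : ℝ) ≤ 2 ^ L))
      fun i hi => by exact_mod_cast (N1.trans_lt ((hA n hn).2 i hi)).trans_le (nab _).ge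
  obtain ⟨B, hB⟩ : ∃ B, B = A.image fun n => (T 3)^[s n] n := ⟨_, rfl⟩
  have B1 : ∀ a ∈ B, N < |(a : ℝ)| := fun a ha => by
    obtain ⟨n, hn, rfl⟩ := mem_image.1 (hB ▸ ha)
    exact (hA n hn).2 _ (hs n hn)
  have B2 : ∀ a ∈ B, 3 * m + c₀ + 8 < Nat.clog 2 a.natAbs := fun a ha =>
    (Nat.lt_clog_iff_pow_lt one_lt_two).2 (by
      exact_mod_cast (hN.trans_lt (B1 a ha)).trans_le (nab a).ge)
  have B3 : ∀ a : ℤ, |(a : ℝ)| ≤ 2 ^ Nat.clog 2 a.natAbs := fun a => by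
    rw [← nab]; exact_mod_cast Nat.le_pow_clog one_lt_two _
  have B4 : ∀ a ∈ B, 2 ^ Nat.clog 2 a.natAbs ≤ 2 * |(a : ℝ)| := fun a ha => by
    have a1 : 1 < a.natAbs := by exact_mod_cast (N1.trans_lt (B1 a ha)).trans_le (nab a).ge
    have a2 := (Nat.pow_pred_clog_lt_self one_lt_two a1).le
    obtain ⟨u, hu⟩ := Nat.exists_eq_succ_of_ne_zero (Nat.clog_pos one_lt_two a1).ne'
    rw [hu, Nat.pred_succ] at a2
    rw [hu, pow_succ', ← nab]
    exact mul_le_mul_of_nonneg_left (by exact_mod_cast a2) zero_le_two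
  have B5 : ∀ a ∈ B, ∀ j ≤ 2 * Nat.clog 2 a.natAbs,
      2 ^ (Nat.clog 2 a.natAbs - Nat.clog 2 a.natAbs / m) < |(T 3)^[j] a| := fun a ha j hj => by
    have a1 := B2 a ha
    obtain ⟨n, hn, rfl⟩ := mem_image.1 (hB ▸ ha)
    have a2 := not_good h0 h1.le hm h4m (by omega) (hng n hn) j hj
    beta_reduce at a2
    rw [add_comm (s n), Function.iterate_add_apply] at a2
    rw [← Int.natCast_natAbs]
    exact_mod_cast a2
  let w : ℕ → ℝ := fun l => C * (9 * l) ^ 3 * (4 * x / 2 ^ l)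
  have s1 : (A.card : ℝ) ≤ ∑ a ∈ B, w (Nat.clog 2 a.natAbs) := by
    rw [card_eq_sum_card_image (fun n => (T 3)^[s n] n), ← hB, Nat.cast_sum]
    refine sum_le_sum fun a ha => ?_
    have a1 := N1.trans_lt (B1 a ha)
    have a2 := B2 a ha
    have a3 := B4 a ha
    refine (hfib a (4 * (Nat.clog 2 a.natAbs + 1)) (q * (L + 1) + 6 * L + 4) x _ hx
      (fun c => by rw [c] at a1; norm_num at a1) ?_ fun n hn => ?_).trans ?_
    · obtain ⟨e, he⟩ : ∃ e, Nat.clog 2 a.natAbs = e + 8 := ⟨Nat.clog 2 a.natAbs - 8, by omega⟩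
      rw [he] at a2 a3
      rw [he]
      have a4 : (4 * (e + 8 + 1) + c₀) * 4 ≤ 2 ^ (e + 8) := by
        have := Nat.lt_two_pow_self (n := e)
        rw [pow_add]
        omega
      have a5 : ((4 * (e + 8 + 1) + c₀ : ℕ) : ℝ) * 4 ≤ 2 ^ (e + 8) := by exact_mod_cast a4
      linarith
    · obtain ⟨b1, b2⟩ := mem_filter.1 hn
      refine ⟨(hA n b1).1, s n, hs n b1, b2, fun i hi => ?_⟩
      have := hch n b1 i hi
      rwa [b2, nab, nab] at this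
    · have a4 : (1 : ℝ) ≤ Nat.clog 2 a.natAbs := by exact_mod_cast (by omega : 1 ≤ _)
      refine mul_le_mul ?_ ?_ (by positivity) (by positivity)
      · push_cast
        gcongr
        linarith
      · rw [div_le_div_iff₀ (by linarith) (by positivity)]
        nlinarith
  rw [sum_comp w] at s1
  refine s1.trans (le_trans (sum_le_sum (g := fun l : ℕ => 2916 * C₀ * C * x *
    N ^ (-(1 - H / log 2 + d / 2 / log 2)) * ((l : ℝ) ^ 3 * exp (-d / 2) ^ l)) fun l hl => ?_) ?_)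
  · obtain ⟨a, ha, e⟩ := mem_image.1 hl
    have a1 : N ≤ 2 ^ l := e ▸ (B1 a ha).le.trans (B3 a)
    have a2 := hbad l (B.filter fun a => Nat.clog 2 a.natAbs = l) fun a ha => by
      obtain ⟨b1, rfl⟩ := mem_filter.1 ha
      exact ⟨by exact_mod_cast B3 a, B5 a b1⟩
    have a3 : exp ((H - d) * l) / 2 ^ l ≤
        N ^ (-(1 - H / log 2 + d / 2 / log 2)) * exp (-d / 2) ^ l := by
      refine le_trans (le_of_eq ?_) (mul_le_mul_of_nonneg_right
        (rpow_le_rpow_of_nonpos (by linarith) a1 (by linarith)) (by positivity))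
      rw [rpow_def_of_pos (by positivity), log_pow, ← exp_nat_mul, ← exp_add, div_eq_iff (by positivity),
        ← exp_log (two_pos (α := ℝ)), ← exp_nat_mul, ← exp_add, exp_log two_pos]
      congr 1
      field_simp
      ring
    rw [nsmul_eq_mul]
    calc _ ≤ C₀ * exp ((H - d) * l) * w l := mul_le_mul_of_nonneg_right a2 (by positivity)
      _ = 2916 * C₀ * C * x * l ^ 3 * (exp ((H - d) * l) / 2 ^ l) := by simp only [w]; ring
      _ ≤ _ := (mul_le_mul_of_nonneg_left a3 (by positivity)).trans_eq (by ring)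
  · rw [← mul_sum]
    exact (mul_le_mul_of_nonneg_left (hsum.sum_le_tsum _ fun l _ => by positivity)
      (by positivity)).trans_eq (by ring)

theorem main : ∃ γ > (0.0595 : ℝ), ∃ C : ℝ, ∀ x N : ℝ, 1 ≤ x → 1 ≤ N →
    ({n : ℤ | |(n : ℝ)| ≤ x ∧ ∀ j : ℕ, (j : ℝ) ≤ C * log x →
      N < |(((T 3)^[j] n : ℤ) : ℝ)|}.ncard : ℝ) ≤ C * x * N ^ (-γ) := by
  classical
  obtain ⟨γ, hγ, q, l₀, K, hK, h⟩ := count
  have l2 := log_pos (one_lt_two (α := ℝ))
  refine ⟨γ, hγ, (3 * q + 16) / log 2 + (K + 6 * (2 ^ l₀) ^ γ), fun x N hx hN => ?_⟩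
  obtain ⟨C, hC⟩ : ∃ C, C = (3 * q + 16) / log 2 + (K + 6 * (2 ^ l₀ : ℝ) ^ γ) := ⟨_, rfl⟩
  have C1 : (3 * q + 16) / log 2 ≤ C := hC ▸ le_add_of_nonneg_right (by positivity)
  have C2 : K + 6 * (2 ^ l₀ : ℝ) ^ γ ≤ C := hC ▸ le_add_of_nonneg_left (by positivity)
  have C0 : 0 ≤ C := le_trans (by positivity) C2
  rw [← hC]
  have lx := log_nonneg hx
  obtain ⟨L, hL⟩ : ∃ L, L = ⌈log x / log 2⌉₊ := ⟨_, rfl⟩
  have L1 : x ≤ 2 ^ L := by
    rw [← log_le_log_iff (by linarith) (by positivity), log_pow, ← div_le_iff₀ l2, hL]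
    exact Nat.le_ceil _
  have L2 : (L : ℝ) ≤ log x / log 2 + 1 := hL ▸ (Nat.ceil_lt_add_one (by positivity)).le
  have L3 : (2 : ℝ) ^ L ≤ 2 * x := by
    rw [← log_le_log_iff (by positivity) (by linarith), log_pow,
      log_mul two_ne_zero (by linarith), ← le_div_iff₀ l2, add_div, div_self l2.ne']
    linarith
  let A := (Icc (-2 ^ L : ℤ) (2 ^ L)).filter fun n : ℤ => |(n : ℝ)| ≤ x ∧
    ∀ j : ℕ, (j : ℝ) ≤ C * log x → N < |(((T 3)^[j] n : ℤ) : ℝ)|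
  refine (Count.ncard_le (A := A) fun n hn =>
    mem_filter.2 ⟨mem_Icc.2 (abs_le.1 (Count.mem_box hn.1 L1)), hn⟩).trans ?_
  have N0 : 0 ≤ x * N ^ (-γ) := by positivity
  rw [mul_assoc]
  refine le_trans ?_ (mul_le_mul_of_nonneg_right C2 N0)
  rw [add_mul]
  rcases lt_or_ge x 2 with hx2 | hx2
  · rw [card_eq_zero.2 (filter_eq_empty_iff.2 fun n _ hn => ?_), Nat.cast_zero]
    · positivity
    · have a1 : |n| < 2 := by exact_mod_cast hn.1.trans_lt hx2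
      have a2 : 1 < |n| := by
        exact_mod_cast hN.trans_lt (hn.2 0 (by rw [Nat.cast_zero]; positivity))
      omega
  rcases le_total (2 ^ l₀) N with hN' | hN'
  · refine le_add_of_le_of_nonneg ((h L x N A (by linarith) L1 hN' fun n hn => ?_).trans_eq
      (mul_assoc _ _ _)) (by positivity)
    obtain ⟨a1, a2⟩ := (mem_filter.1 hn).2
    refine ⟨a1, fun j hj => a2 j (le_trans ?_ (mul_le_mul_of_nonneg_right C1 lx))⟩
    have a3 : 1 ≤ log x / log 2 := (one_le_div l2).2 (log_le_log two_pos hx2)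
    have a4 : (j : ℝ) ≤ q * (L + 1) + 6 * L + 4 := by exact_mod_cast hj
    have a5 : (0 : ℝ) ≤ q := by positivity
    rw [div_mul_eq_mul_div, mul_div_assoc]
    nlinarith
  · refine le_add_of_nonneg_of_le (by positivity) ((Count.card_box L A fun n hn =>
      abs_le.2 (mem_Icc.1 (mem_filter.1 hn).1)).trans ?_)
    have a1 : 1 ≤ (2 ^ l₀ : ℝ) ^ γ * N ^ (-γ) := by
      rw [rpow_neg (by linarith), ← div_eq_mul_inv, one_le_div (by positivity)]
      exact rpow_le_rpow (by linarith) hN' (by linarith)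
    nlinarith

theorem cycles : ∃ C : ℝ, ∀ N : ℝ, 1 ≤ N →
    ((Function.periodicOrbit (T 3) '' {p ∈ Function.periodicPts (T 3) |
        ∃ y : ℤ, |(y : ℝ)| ≤ N ∧ ∃ i, (T 3)^[i] y = p}).ncard : ℝ) ≤ C * N ^ (0.9405 : ℝ) ∧
    ∀ x : ℝ, 1 ≤ x →
      ({n : ℤ | |(n : ℝ)| ≤ x ∧ ∃ j, (T 3)^[j] n ∈ Function.periodicPts (T 3) ∧
        ∀ y : ℤ, |(y : ℝ)| ≤ N → ∀ i, (T 3)^[i] y ≠ (T 3)^[j] n}.ncard : ℝ) ≤
      C * x * N ^ (-0.0595 : ℝ) := by
  obtain ⟨γ, hγ, C, h⟩ := main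
  have h1 : ∀ N : ℝ, 1 ≤ N → ∀ x : ℝ, 1 ≤ x →
      ({n : ℤ | |(n : ℝ)| ≤ x ∧ ∃ j, (T 3)^[j] n ∈ Function.periodicPts (T 3) ∧
        ∀ y : ℤ, |(y : ℝ)| ≤ N → ∀ i, (T 3)^[i] y ≠ (T 3)^[j] n}.ncard : ℝ) ≤
      |C| * x * N ^ (0.9405 - 1 : ℝ) := fun N hN x hx =>
    ((Nat.cast_le.2 unreached).trans (h x N hx hN)).trans (mul_le_mul
      (mul_le_mul_of_nonneg_right (le_abs_self C) (by linarith))
      (rpow_le_rpow_of_exponent_le hN (by linarith))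
      (rpow_nonneg (by linarith) _) (mul_nonneg (abs_nonneg C) (by linarith)))
  obtain ⟨K, hK, h2⟩ := few_cycles (T 3) (by norm_num) (abs_nonneg C) h1
  refine ⟨K + |C|, fun N hN => ⟨(h2 N hN).trans
    (mul_le_mul_of_nonneg_right (by linarith [abs_nonneg C]) (rpow_nonneg (by linarith) _)),
    fun x hx => ?_⟩⟩
  rw [show (-0.0595 : ℝ) = 0.9405 - 1 by norm_num]
  exact (h1 N hN x hx).trans (mul_le_mul_of_nonneg_right (mul_le_mul_of_nonneg_right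
    (by linarith) (by linarith)) (rpow_nonneg (by linarith) _))

end Pool.Agent.Lib.MP_dee342_nt.Ex
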